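import Mathlib

namespace Pool.Agent.Results.MP_e87155_co.PathEdge

open SimpleGraph

/-- `φ` gives different colours to any two different edges of `G` with a common vertex. -/
def IsProper {β : Type} (G : SimpleGraph β) (φ : Sym2 β → ℕ) : Prop :=
  ∀ e ∈ G.edgeSet, ∀ e' ∈ G.edgeSet, e ≠ e' → (∃ v, v ∈ e ∧ v ∈ e') → φ e ≠ φ e'

/-- All edges of the copy `f` of `H` have different colours. -/
def IsRainbow {α β : Type} {H : SimpleGraph α} {G : SimpleGraph β} (φ : Sym2 β → ℕ)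
    (f : Copy H G) : Prop :=
  ∀ e ∈ H.edgeSet, ∀ e' ∈ H.edgeSet, e ≠ e' → φ (e.map f) ≠ φ (e'.map f)

/-- `G` has no copy of `H`, and adding any missing edge creates one. -/
def IsSat {α β : Type} (H : SimpleGraph α) (G : SimpleGraph β) : Prop :=
  ¬ H.IsContained G ∧
    ∀ u v : β, u ≠ v → ¬ G.Adj u v → H.IsContained (G ⊔ edge u v)

/-- Some proper edge colouring of `G` has no rainbow copy of `H`, and after adding any missing edge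
every proper edge colouring has one. -/
def IsRainbowSat {α β : Type} (H : SimpleGraph α) (G : SimpleGraph β) : Prop :=
  (∃ φ : Sym2 β → ℕ, IsProper G φ ∧ ¬ ∃ f : Copy H G, IsRainbow φ f) ∧
    ∀ u v : β, u ≠ v → ¬ G.Adj u v →
      ∀ φ : Sym2 β → ℕ, IsProper (G ⊔ edge u v) φ →
        ∃ f : Copy H (G ⊔ edge u v), IsRainbow φ f

/-- The saturation number. -/
noncomputable def satNum {α : Type} (n : ℕ) (H : SimpleGraph α) : ℕ :=
  sInf {m | ∃ G : SimpleGraph (Fin n), IsSat H G ∧ G.edgeSet.ncard = m}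

/-- The rainbow saturation number. -/
noncomputable def rainbowSatNum {α : Type} (n : ℕ) (H : SimpleGraph α) : ℕ :=
  sInf {m | ∃ G : SimpleGraph (Fin n), IsRainbowSat H G ∧ G.edgeSet.ncard = m}

/-- The disjoint union of a path on four vertices and a single edge. -/
def PK : SimpleGraph (Fin 6) := fromEdgeSet {s(0, 1), s(1, 2), s(2, 3), s(4, 5)}

/-! ### explicit form of copies -/

lemma pk_adj (x y : Fin 6) : PK.Adj x y ↔
    (x = 0 ∧ y = 1) ∨ (x = 1 ∧ y = 0) ∨ (x = 1 ∧ y = 2) ∨ (x = 2 ∧ y = 1) ∨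
    (x = 2 ∧ y = 3) ∨ (x = 3 ∧ y = 2) ∨ (x = 4 ∧ y = 5) ∨ (x = 5 ∧ y = 4) := by
  unfold PK
  simp only [fromEdgeSet_adj, Set.mem_insert_iff, Set.mem_singleton_iff]
  revert x y
  decide

/-- Six distinct vertices. -/
def Dist6 {β : Type} (a b c d p q : β) : Prop :=
  a ≠ b ∧ a ≠ c ∧ a ≠ d ∧ a ≠ p ∧ a ≠ q ∧ b ≠ c ∧ b ≠ d ∧ b ≠ p ∧ b ≠ q ∧
    c ≠ d ∧ c ≠ p ∧ c ≠ q ∧ d ≠ p ∧ d ≠ q ∧ p ≠ q

/-- The six vertices span a copy of `PK`. -/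
def Cop {β : Type} (G : SimpleGraph β) (a b c d p q : β) : Prop :=
  Dist6 a b c d p q ∧ G.Adj a b ∧ G.Adj b c ∧ G.Adj c d ∧ G.Adj p q

/-- Four distinct colours. -/
def Rb {β : Type} (φ : Sym2 β → ℕ) (a b c d p q : β) : Prop :=
  φ s(a, b) ≠ φ s(b, c) ∧ φ s(a, b) ≠ φ s(c, d) ∧ φ s(a, b) ≠ φ s(p, q) ∧
    φ s(b, c) ≠ φ s(c, d) ∧ φ s(b, c) ≠ φ s(p, q) ∧ φ s(c, d) ≠ φ s(p, q)

/-- The copy given by six vertices. -/
def mkCopy {β : Type} (G : SimpleGraph β) (a b c d p q : β) (h : Cop G a b c d p q) :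
    Copy PK G where
  toHom := {
    toFun := ![a, b, c, d, p, q]
    map_rel' := by
      intro x y hxy
      obtain ⟨-, h1, h2, h3, h4⟩ := h
      rcases (pk_adj x y).1 hxy with ⟨rfl, rfl⟩ | ⟨rfl, rfl⟩ | ⟨rfl, rfl⟩ | ⟨rfl, rfl⟩ |
        ⟨rfl, rfl⟩ | ⟨rfl, rfl⟩ | ⟨rfl, rfl⟩ | ⟨rfl, rfl⟩
      · exact h1
      · exact h1.symm
      · exact h2
      · exact h2.symm
      · exact h3
      · exact h3.symm
      · exact h4
      · exact h4.symm }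
  injective' := by
    obtain ⟨⟨h1, h2, h3, h4, h5, h6, h7, h8, h9, h10, h11, h12, h13, h14, h15⟩, -⟩ := h
    intro x y hxy
    change ![a, b, c, d, p, q] x = ![a, b, c, d, p, q] y at hxy
    fin_cases x <;> fin_cases y <;> simp_all

lemma cop_of_copy {β : Type} {G : SimpleGraph β} (f : Copy PK G) :
    Cop G (f 0) (f 1) (f 2) (f 3) (f 4) (f 5) := by
  have hi : ∀ x y : Fin 6, x ≠ y → f x ≠ f y := fun x y h h' => h (f.injective h')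
  have ha : ∀ x y : Fin 6, PK.Adj x y → G.Adj (f x) (f y) := fun x y h => f.toHom.map_rel h
  refine ⟨⟨hi _ _ (by decide), hi _ _ (by decide), hi _ _ (by decide), hi _ _ (by decide),
    hi _ _ (by decide), hi _ _ (by decide), hi _ _ (by decide), hi _ _ (by decide),
    hi _ _ (by decide), hi _ _ (by decide), hi _ _ (by decide), hi _ _ (by decide),
    hi _ _ (by decide), hi _ _ (by decide), hi _ _ (by decide)⟩,
    ha _ _ ((pk_adj _ _).2 (by decide)), ha _ _ ((pk_adj _ _).2 (by decide)),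
    ha _ _ ((pk_adj _ _).2 (by decide)), ha _ _ ((pk_adj _ _).2 (by decide))⟩

lemma isContained_iff {β : Type} (G : SimpleGraph β) :
    PK.IsContained G ↔ ∃ a b c d p q, Cop G a b c d p q := by
  constructor
  · rintro ⟨f⟩
    exact ⟨_, _, _, _, _, _, cop_of_copy f⟩
  · rintro ⟨a, b, c, d, p, q, h⟩
    exact ⟨mkCopy G a b c d p q h⟩

lemma pk_edges (e : Sym2 (Fin 6)) : e ∈ PK.edgeSet ↔
    e = s(0, 1) ∨ e = s(1, 2) ∨ e = s(2, 3) ∨ e = s(4, 5) := by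
  unfold PK
  rw [edgeSet_fromEdgeSet]
  simp only [Set.mem_sdiff, Set.mem_insert_iff, Set.mem_singleton_iff]
  constructor
  · exact fun h => h.1
  · intro h
    refine ⟨h, ?_⟩
    rcases h with rfl | rfl | rfl | rfl <;> simp

lemma rainbow_iff {β : Type} {G : SimpleGraph β} (φ : Sym2 β → ℕ) (f : Copy PK G) :
    IsRainbow φ f ↔ Rb φ (f 0) (f 1) (f 2) (f 3) (f 4) (f 5) := by
  constructor
  · intro h
    have h' : ∀ e e' : Sym2 (Fin 6), e ∈ PK.edgeSet → e' ∈ PK.edgeSet → e ≠ e' →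
      φ (e.map f) ≠ φ (e'.map f) := fun e e' h1 h2 => h e h1 e' h2
    refine ⟨h' s(0, 1) s(1, 2) ?_ ?_ (by decide), h' s(0, 1) s(2, 3) ?_ ?_ (by decide),
      h' s(0, 1) s(4, 5) ?_ ?_ (by decide), h' s(1, 2) s(2, 3) ?_ ?_ (by decide),
      h' s(1, 2) s(4, 5) ?_ ?_ (by decide), h' s(2, 3) s(4, 5) ?_ ?_ (by decide)⟩ <;>
      · rw [pk_edges]; simp
  · rintro ⟨h1, h2, h3, h4, h5, h6⟩ e he e' he' hne
    rw [pk_edges] at he he'
    rcases he with rfl | rfl | rfl | rfl <;> rcases he' with rfl | rfl | rfl | rfl <;>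
      first
        | exact absurd rfl hne
        | exact h1
        | exact h2
        | exact h3
        | exact h4
        | exact h5
        | exact h6
        | exact h1.symm
        | exact h2.symm
        | exact h3.symm
        | exact h4.symm
        | exact h5.symm
        | exact h6.symm

lemma exists_rainbow_iff {β : Type} (G : SimpleGraph β) (φ : Sym2 β → ℕ) :
    (∃ f : Copy PK G, IsRainbow φ f) ↔
      ∃ a b c d p q, Cop G a b c d p q ∧ Rb φ a b c d p q := by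
  constructor
  · rintro ⟨f, hf⟩
    exact ⟨_, _, _, _, _, _, cop_of_copy f, (rainbow_iff φ f).1 hf⟩
  · rintro ⟨a, b, c, d, p, q, h, hr⟩
    exact ⟨mkCopy G a b c d p q h, (rainbow_iff φ _).2 hr⟩

/-! ### the lower bound for saturated graphs -/

lemma adj_sup {β : Type} (G : SimpleGraph β) (u v x y : β) (h : (G ⊔ edge u v).Adj x y) :
    G.Adj x y ∨ (x = u ∧ y = v) ∨ (x = v ∧ y = u) := by
  rw [sup_adj, edge_adj] at h
  tauto

lemma exists_path {β : Type} (G : SimpleGraph β) (u v : β)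
    (hu : ∀ x, ¬ G.Adj u x) (hv : ∀ x, ¬ G.Adj v x)
    (h : PK.IsContained (G ⊔ edge u v)) :
    ∃ a b c d, G.Adj a b ∧ G.Adj b c ∧ G.Adj c d ∧ a ≠ c ∧ a ≠ d ∧ b ≠ d := by
  obtain ⟨a, b, c, d, p, q, hd, h1, h2, h3, h4⟩ := (isContained_iff _).1 h
  obtain ⟨e1, e2, e3, e4, e5, e6, e7, e8, e9, e10, e11, e12, e13, e14, e15⟩ := hd
  have hu' : ∀ x, ¬ G.Adj x u := fun x hx => hu x hx.symm
  have hv' : ∀ x, ¬ G.Adj x v := fun x hx => hv x hx.symm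
  rcases adj_sup G u v _ _ h1 with g1 | ⟨rfl, rfl⟩ | ⟨rfl, rfl⟩ <;>
  rcases adj_sup G _ _ _ _ h2 with g2 | ⟨g2, g2'⟩ | ⟨g2, g2'⟩ <;>
  rcases adj_sup G _ _ _ _ h3 with g3 | ⟨g3, g3'⟩ | ⟨g3, g3'⟩ <;> subst_vars <;>
  first
    | exact ⟨a, b, c, d, g1, g2, g3, e2, e3, e7⟩
    | (exfalso; first | exact hu _ g1 | exact hu _ g2 | exact hu _ g3 | exact hv _ g1 | exact hv _ g2 | exact hv _ g3 | exact hu' _ g1 | exact hu' _ g2 | exact hu' _ g3 | exact hv' _ g1 | exact hv' _ g2 | exact hv' _ g3 | exact e2 rfl)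

lemma exists_two {β : Type} (G : SimpleGraph β) (x u : β)
    (h : PK.IsContained (G ⊔ edge x u)) :
    ∃ r s t w, G.Adj r s ∧ G.Adj t w ∧ r ≠ t ∧ r ≠ w ∧ s ≠ t ∧ s ≠ w ∧
      r ≠ x ∧ s ≠ x ∧ t ≠ x ∧ w ≠ x := by
  obtain ⟨a, b, c, d, p, q, hd, h1, h2, h3, h4⟩ := (isContained_iff _).1 h
  obtain ⟨e1, e2, e3, e4, e5, e6, e7, e8, e9, e10, e11, e12, e13, e14, e15⟩ := hd
  have k1 : (a ≠ x ∧ b ≠ x) → G.Adj a b := by
    intro hh
    rcases adj_sup G _ _ _ _ h1 with g | g | g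
    · exact g
    · exact absurd g.1 hh.1
    · exact absurd g.2 hh.2
  have k3 : (c ≠ x ∧ d ≠ x) → G.Adj c d := by
    intro hh
    rcases adj_sup G _ _ _ _ h3 with g | g | g
    · exact g
    · exact absurd g.1 hh.1
    · exact absurd g.2 hh.2
  have k4 : (p ≠ x ∧ q ≠ x) → G.Adj p q := by
    intro hh
    rcases adj_sup G _ _ _ _ h4 with g | g | g
    · exact g
    · exact absurd g.1 hh.1
    · exact absurd g.2 hh.2
  by_cases ha : a = x ∨ b = x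
  · refine ⟨c, d, p, q, k3 ?_, k4 ?_, ?_, ?_, ?_, ?_, ?_, ?_, ?_, ?_⟩ <;> grind
  · push Not at ha
    by_cases hc : c = x ∨ d = x
    · refine ⟨a, b, p, q, k1 ha, k4 ?_, ?_, ?_, ?_, ?_, ?_, ?_, ?_, ?_⟩ <;> grind
    · push Not at hc
      refine ⟨a, b, c, d, k1 ha, k3 hc, ?_, ?_, ?_, ?_, ?_, ?_, ?_, ?_⟩ <;> grind

/-- Two disjoint edges. -/
def M2 {β : Type} (G : SimpleGraph β) (r s t w : β) : Prop :=
  G.Adj r s ∧ G.Adj t w ∧ r ≠ t ∧ r ≠ w ∧ s ≠ t ∧ s ≠ w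

/-- No copies, in a convenient form. -/
lemma noCop {β : Type} {G : SimpleGraph β} (hno : ∀ a b c d p q, ¬ Cop G a b c d p q)
    {a b c d p q : β} (i1 : G.Adj a b) (i2 : G.Adj b c) (i3 : G.Adj c d) (i4 : G.Adj p q)
    (i5 : a ≠ c) (i6 : a ≠ d) (i7 : b ≠ d) (i8 : a ≠ p ∧ a ≠ q) (i9 : b ≠ p ∧ b ≠ q)
    (i10 : c ≠ p ∧ c ≠ q) (i11 : d ≠ p ∧ d ≠ q) : False :=
  hno a b c d p q ⟨⟨i1.ne, i5, i6, i8.1, i8.2, i2.ne, i7, i9.1, i9.2, i3.ne, i10.1, i10.2, i11.1,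
    i11.2, i4.ne⟩, i1, i2, i3, i4⟩

/-- Disjoint pairs. -/
def Dj {β : Type} (x y z w : β) : Prop := x ≠ z ∧ x ≠ w ∧ y ≠ z ∧ y ≠ w

lemma Dj.swap_left {β : Type} {x y z w : β} (h : Dj x y z w) : Dj y x z w :=
  ⟨h.2.2.1, h.2.2.2, h.1, h.2.1⟩

lemma Dj.swap_right {β : Type} {x y z w : β} (h : Dj x y z w) : Dj x y w z :=
  ⟨h.2.1, h.1, h.2.2.2, h.2.2.1⟩

lemma Dj.symm {β : Type} {x y z w : β} (h : Dj x y z w) : Dj z w x y :=
  ⟨h.1.symm, h.2.2.1.symm, h.2.1.symm, h.2.2.2.symm⟩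

lemma no_three {β : Type} (G : SimpleGraph β) (hno : ∀ a b c d p q, ¬ Cop G a b c d p q)
    (a b c d : β) (hab : G.Adj a b) (hbc : G.Adj b c) (hcd : G.Adj c d) (hac : a ≠ c)
    (had : a ≠ d) (hbd : b ≠ d) (x1 y1 x2 y2 x3 y3 : β) (h1 : G.Adj x1 y1) (h2 : G.Adj x2 y2)
    (h3 : G.Adj x3 y3) (k12 : Dj x1 y1 x2 y2) (k13 : Dj x1 y1 x3 y3)
    (k23 : Dj x2 y2 x3 y3) : False := by
  -- every edge meets the path
  have M : ∀ x y, G.Adj x y →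
      (x = a ∨ x = b ∨ x = c ∨ x = d) ∨ (y = a ∨ y = b ∨ y = c ∨ y = d) := by
    intro x y hxy
    by_contra hh
    push Not at hh
    obtain ⟨⟨q1, q2, q3, q4⟩, ⟨r1, r2, r3, r4⟩⟩ := hh
    exact noCop hno hab hbc hcd hxy hac had hbd ⟨q1.symm, r1.symm⟩ ⟨q2.symm, r2.symm⟩
      ⟨q3.symm, r3.symm⟩ ⟨q4.symm, r4.symm⟩
  have key2 : ∀ x1 y1 x2 y2 x3 y3 : β, G.Adj x1 y1 → G.Adj x2 y2 → G.Adj x3 y3 →
      Dj x1 y1 x2 y2 → Dj x1 y1 x3 y3 → Dj x2 y2 x3 y3 → G.Adj x1 x2 → False := by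
    intro x1 y1 x2 y2 x3 y3 h1 h2 h3 k12 k13 k23 h12
    exact noCop hno h1.symm h12 h2 h3 k12.2.2.1 k12.2.2.2 k12.2.1 ⟨k13.2.2.1, k13.2.2.2⟩
      ⟨k13.1, k13.2.1⟩ ⟨k23.1, k23.2.1⟩ ⟨k23.2.2.1, k23.2.2.2⟩
  have key : ∀ x1 y1 x2 y2 x3 y3 : β, G.Adj x1 y1 → G.Adj x2 y2 → G.Adj x3 y3 →
      Dj x1 y1 x2 y2 → Dj x1 y1 x3 y3 → Dj x2 y2 x3 y3 →
      (x1 = a ∨ x1 = b ∨ x1 = c ∨ x1 = d) → (x2 = a ∨ x2 = b ∨ x2 = c ∨ x2 = d) →
      (x3 = a ∨ x3 = b ∨ x3 = c ∨ x3 = d) → False := by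
    intro x1 y1 x2 y2 x3 y3 h1 h2 h3 k12 k13 k23 m1 m2 m3
    have hh : G.Adj x1 x2 ∨ G.Adj x1 x3 ∨ G.Adj x2 x3 := by
      have n12 := k12.1
      have n13 := k13.1
      have n23 := k23.1
      have hba := hab.symm
      have hcb := hbc.symm
      have hdc := hcd.symm
      rcases m1 with m1 | m1 | m1 | m1 <;> rcases m2 with m2 | m2 | m2 | m2 <;>
        rcases m3 with m3 | m3 | m3 | m3 <;> rw [m1, m2] at n12 <;> rw [m1, m3] at n13 <;>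
        rw [m2, m3] at n23 <;> rw [m1, m2, m3] <;>
        first
          | exact absurd rfl n12
          | exact absurd rfl n13
          | exact absurd rfl n23
          | (left; assumption)
          | (right; left; assumption)
          | (right; right; assumption)
    rcases hh with hh | hh | hh
    · exact key2 x1 y1 x2 y2 x3 y3 h1 h2 h3 k12 k13 k23 hh
    · exact key2 x1 y1 x3 y3 x2 y2 h1 h3 h2 k13 k12 k23.symm hh
    · exact key2 x2 y2 x3 y3 x1 y1 h2 h3 h1 k23 k12.symm k13.symm hh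
  rcases M _ _ h1 with m1 | m1 <;> rcases M _ _ h2 with m2 | m2 <;> rcases M _ _ h3 with m3 | m3
  · exact key x1 y1 x2 y2 x3 y3 h1 h2 h3 k12 k13 k23 m1 m2 m3
  · exact key x1 y1 x2 y2 y3 x3 h1 h2 h3.symm k12 k13.swap_right k23.swap_right m1 m2 m3
  · exact key x1 y1 y2 x2 x3 y3 h1 h2.symm h3 k12.swap_right k13 k23.swap_left m1 m2 m3
  · exact key x1 y1 y2 x2 y3 x3 h1 h2.symm h3.symm k12.swap_right k13.swap_right
      k23.swap_left.swap_right m1 m2 m3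
  · exact key y1 x1 x2 y2 x3 y3 h1.symm h2 h3 k12.swap_left k13.swap_left k23 m1 m2 m3
  · exact key y1 x1 x2 y2 y3 x3 h1.symm h2 h3.symm k12.swap_left k13.swap_left.swap_right
      k23.swap_right m1 m2 m3
  · exact key y1 x1 y2 x2 x3 y3 h1.symm h2.symm h3 k12.swap_left.swap_right k13.swap_left
      k23.swap_left m1 m2 m3
  · exact key y1 x1 y2 x2 y3 x3 h1.symm h2.symm h3.symm k12.swap_left.swap_right
      k13.swap_left.swap_right k23.swap_left.swap_right m1 m2 m3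

/-- There are no three pairwise disjoint edges. -/
def No3 {β : Type} (G : SimpleGraph β) : Prop :=
  ∀ x1 y1 x2 y2 x3 y3 : β, G.Adj x1 y1 → G.Adj x2 y2 → G.Adj x3 y3 →
    Dj x1 y1 x2 y2 → Dj x1 y1 x3 y3 → Dj x2 y2 x3 y3 → False

/-- There are two disjoint edges avoiding `x`. -/
def Av2 {β : Type} (G : SimpleGraph β) (x : β) : Prop :=
  ∃ r s t w, G.Adj r s ∧ G.Adj t w ∧ Dj r s t w ∧ r ≠ x ∧ s ≠ x ∧ t ≠ x ∧ w ≠ x

/-- `i` is none of the four given vertices. -/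
def Out {β : Type} (p q r s i : β) : Prop := i ≠ p ∧ i ≠ q ∧ i ≠ r ∧ i ≠ s

lemma out_or {β : Type} (p q r s i : β) : Out p q r s i ∨ i = p ∨ i = q ∨ i = r ∨ i = s := by
  unfold Out; tauto

lemma ind {β : Type} {G : SimpleGraph β} (h3 : No3 G) {p q r s : β}
    (hpq : G.Adj p q) (hrs : G.Adj r s) (hdj : Dj p q r s) :
    ∀ i j, Out p q r s i → Out p q r s j → ¬ G.Adj i j := by
  intro i j hi hj hij
  exact h3 p q r s i j hpq hrs hij hdj ⟨hi.1.symm, hj.1.symm, hi.2.1.symm, hj.2.1.symm⟩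
    ⟨hi.2.2.1.symm, hj.2.2.1.symm, hi.2.2.2.symm, hj.2.2.2.symm⟩

lemma caseI_aux {β : Type} (G : SimpleGraph β) (h3 : No3 G) (p q r s : β)
    (h2 : Av2 G p)
    (hpq : G.Adj p q) (hrs : G.Adj r s) (hdj : Dj p q r s)
    (hq : ∀ i, Out p q r s i → ¬ G.Adj q i)
    (hs : ∀ i, Out p q r s i → ¬ G.Adj s i) : G.Adj q s ∧ ∃ i, Out p q r s i ∧ G.Adj r i := by
  have ind := ind h3 hpq hrs hdj
  -- edges avoiding p and r
  have e1 : ∀ x y, G.Adj x y → x ≠ p → x ≠ r → y ≠ p → y ≠ r →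
      (x = q ∧ y = s) ∨ (x = s ∧ y = q) := by
    intro x y hxy a1 a2 a3 a4
    have hxx := hxy.ne
    rcases out_or p q r s x with hx | hx | hx | hx | hx <;>
      rcases out_or p q r s y with hy | hy | hy | hy | hy
    all_goals first
      | exact absurd hx a1
      | exact absurd hx a2
      | exact absurd hy a3
      | exact absurd hy a4
      | exact absurd hxy (ind _ _ hx hy)
      | (left; exact ⟨hx, hy⟩)
      | (right; exact ⟨hx, hy⟩)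
      | (exfalso; rw [hy] at hxy; exact hq _ hx hxy.symm)
      | (exfalso; rw [hy] at hxy; exact hs _ hx hxy.symm)
      | (exfalso; rw [hx] at hxy; exact hq _ hy hxy)
      | (exfalso; rw [hx] at hxy; exact hs _ hy hxy)
      | (exfalso; rw [hx, hy] at hxx; exact hxx rfl)
  obtain ⟨x1, y1, x2, y2, k1, k2, kd, n1, n2, n3, n4⟩ := h2
  obtain ⟨d1, d2, d3, d4⟩ := kd
  -- the general step
  have gen : ∀ x1 y1 x2 y2, G.Adj x1 y1 → G.Adj x2 y2 → x1 ≠ x2 → x1 ≠ y2 → y1 ≠ x2 → y1 ≠ y2 →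
      x1 ≠ p → y1 ≠ p → x2 ≠ p → y2 ≠ p → x2 ≠ r → y2 ≠ r →
      G.Adj q s ∧ ∃ i, Out p q r s i ∧ G.Adj r i := by
    intro x1 y1 x2 y2 k1 k2 d1 d2 d3 d4 n1 n2 n3 n4 m1 m2
    have hx2 := e1 x2 y2 k2 n3 m1 n4 m2
    have hqs : G.Adj q s := by
      rcases hx2 with ⟨g1, g2⟩ | ⟨g1, g2⟩
      · rw [g1, g2] at k2; exact k2
      · rw [g1, g2] at k2; exact k2.symm
    refine ⟨hqs, ?_⟩
    have q1 : x1 ≠ q ∧ x1 ≠ s ∧ y1 ≠ q ∧ y1 ≠ s := by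
      rcases hx2 with ⟨g1, g2⟩ | ⟨g1, g2⟩
      · rw [g1] at d1 d3; rw [g2] at d2 d4; exact ⟨d1, d2, d3, d4⟩
      · rw [g1] at d1 d3; rw [g2] at d2 d4; exact ⟨d2, d1, d4, d3⟩
    by_cases hx : x1 = r
    · refine ⟨y1, ⟨n2, q1.2.2.1, ?_, q1.2.2.2⟩, ?_⟩
      · rw [← hx]; exact k1.ne'
      · rw [← hx]; exact k1
    · by_cases hy : y1 = r
      · refine ⟨x1, ⟨n1, q1.1, hx, q1.2.1⟩, ?_⟩
        rw [← hy]; exact k1.symm
      · exfalso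
        rcases e1 x1 y1 k1 n1 hx n2 hy with g | g
        · exact q1.1 g.1
        · exact q1.2.1 g.1
  by_cases c2 : x2 = r ∨ y2 = r
  · refine gen x2 y2 x1 y1 k2 k1 d1.symm d3.symm d2.symm d4.symm n3 n4 n1 n2 ?_ ?_
    · rcases c2 with c2 | c2
      · rw [← c2]; exact d1
      · rw [← c2]; exact d2
    · rcases c2 with c2 | c2
      · rw [← c2]; exact d3
      · rw [← c2]; exact d4
  · push Not at c2
    exact gen x1 y1 x2 y2 k1 k2 d1 d2 d3 d4 n1 n2 n3 n4 c2.1 c2.2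

lemma caseI {β : Type} (G : SimpleGraph β) (h3 : No3 G) (p q r s w w' : β)
    (h2p : Av2 G p) (h2r : Av2 G r)
    (hpq : G.Adj p q) (hrs : G.Adj r s) (hdj : Dj p q r s)
    (hw : Out p q r s w) (hw' : Out p q r s w') (hne : w ≠ w') (nw : ∃ y, G.Adj w y)
    (nw' : ∃ y, G.Adj w' y) (hq : ∀ i, Out p q r s i → ¬ G.Adj q i)
    (hs : ∀ i, Out p q r s i → ¬ G.Adj s i) : False := by
  have ind := ind h3 hpq hrs hdj
  obtain ⟨hqs, i, hi, hri⟩ := caseI_aux G h3 p q r s h2p hpq hrs hdj hq hs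
  have sw : ∀ i, Out r s p q i ↔ Out p q r s i := by intro i; unfold Out; tauto
  obtain ⟨-, j, hj, hpj⟩ := caseI_aux G h3 r s p q h2r hrs hpq hdj.symm
    (fun i hi => hs i ((sw i).1 hi)) (fun i hi => hq i ((sw i).1 hi))
  rw [sw] at hj
  -- p j, r i, q s
  have tri : ∀ i j, Out p q r s i → Out p q r s j → i ≠ j → G.Adj r i → G.Adj p j → False := by
    intro i j hi hj hij hri hpj
    exact h3 p j r i q s hpj hri hqs ⟨hdj.1, hi.1.symm, hj.2.2.1, hij.symm⟩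
      ⟨hpq.ne, hdj.2.1, hj.2.1, hj.2.2.2⟩ ⟨hdj.2.2.1.symm, hrs.ne, hi.2.1, hi.2.2.2⟩
  have hij : i = j := by
    by_contra hij
    exact tri i j hi hj hij hri hpj
  subst hij
  have fin : ∀ w, Out p q r s w → w ≠ i → (∃ y, G.Adj w y) → False := by
    intro w hw hwi ⟨y, hy⟩
    rcases out_or p q r s y with h | h | h | h | h
    · exact ind _ _ hw h hy
    · rw [h] at hy; exact tri i w hi hw hwi.symm hri hy.symm
    · rw [h] at hy; exact hq _ hw hy.symm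
    · rw [h] at hy; exact tri w i hw hi hwi hy.symm hpj
    · rw [h] at hy; exact hs _ hw hy.symm
  by_cases hwi : w = i
  · exact fin w' hw' (fun h => hne (hwi.trans h.symm)) nw'
  · exact fin w hw hwi nw

lemma caseII {β : Type} (G : SimpleGraph β) (h3 : No3 G) (p q r s w w' : β)
    (h2r : Av2 G r)
    (hpq : G.Adj p q) (hrs : G.Adj r s) (hdj : Dj p q r s)
    (a b c d : β) (hab : G.Adj a b) (hbc : G.Adj b c) (hcd : G.Adj c d) (hac : a ≠ c)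
    (had : a ≠ d) (hbd : b ≠ d)
    (hw : Out p q r s w) (hw' : Out p q r s w') (hne : w ≠ w')
    (hpw : G.Adj p w) (hqw : G.Adj q w) (hrw : G.Adj r w') : False := by
  have ind := ind h3 hpq hrs hdj
  -- neighbours of p, q outside are w
  have hp : ∀ i, Out p q r s i → G.Adj p i → i = w := by
    intro i hi hpi
    by_contra hh
    exact h3 p i q w r s hpi hqw hrs ⟨hpq.ne, hw.1.symm, hi.2.1, hh⟩
      ⟨hdj.1, hdj.2.1, hi.2.2.1, hi.2.2.2⟩ ⟨hdj.2.2.1, hdj.2.2.2, hw.2.2.1, hw.2.2.2⟩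
  have hq : ∀ i, Out p q r s i → G.Adj q i → i = w := by
    intro i hi hqi
    by_contra hh
    exact h3 q i p w r s hqi hpw hrs ⟨hpq.ne', hw.2.1.symm, hi.1, hh⟩
      ⟨hdj.2.2.1, hdj.2.2.2, hi.2.2.1, hi.2.2.2⟩ ⟨hdj.1, hdj.2.1, hw.2.2.1, hw.2.2.2⟩
  have hs : ∀ i, Out p q r s i → G.Adj s i → i = w' := by
    intro i hi hsi
    by_contra hh
    exact h3 s i r w' p q hsi hrw hpq ⟨hrs.ne', hw'.2.2.2.symm, hi.2.2.1, hh⟩
      ⟨hdj.2.1.symm, hdj.2.2.2.symm, hi.1, hi.2.1⟩ ⟨hdj.1.symm, hdj.2.2.1.symm, hw'.1, hw'.2.1⟩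
  by_cases hsw : G.Adj s w'
  · have hr : ∀ i, Out p q r s i → G.Adj r i → i = w' := by
      intro i hi hri
      by_contra hh
      exact h3 r i s w' p q hri hsw hpq ⟨hrs.ne, hw'.2.2.1.symm, hi.2.2.2, hh⟩
        ⟨hdj.1.symm, hdj.2.2.1.symm, hi.1, hi.2.1⟩ ⟨hdj.2.1.symm, hdj.2.2.2.symm, hw'.1, hw'.2.1⟩
    -- no edges between the two triangles
    have npr : ¬ G.Adj p r := fun h => h3 p r q w s w' h hqw hsw
      ⟨hpq.ne, hw.1.symm, hdj.2.2.1.symm, hw.2.2.1.symm⟩ ⟨hdj.2.1, hw'.1.symm, hrs.ne, hw'.2.2.1.symm⟩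
      ⟨hdj.2.2.2, hw'.2.1.symm, hw.2.2.2, hne⟩
    have nps : ¬ G.Adj p s := fun h => h3 p s q w r w' h hqw hrw
      ⟨hpq.ne, hw.1.symm, hdj.2.2.2.symm, hw.2.2.2.symm⟩ ⟨hdj.1, hw'.1.symm, hrs.ne', hw'.2.2.2.symm⟩
      ⟨hdj.2.2.1, hw'.2.1.symm, hw.2.2.1, hne⟩
    have nqr : ¬ G.Adj q r := fun h => h3 q r p w s w' h hpw hsw
      ⟨hpq.ne', hw.2.1.symm, hdj.1.symm, hw.2.2.1.symm⟩ ⟨hdj.2.2.2, hw'.2.1.symm, hrs.ne, hw'.2.2.1.symm⟩
      ⟨hdj.2.1, hw'.1.symm, hw.2.2.2, hne⟩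
    have nqs : ¬ G.Adj q s := fun h => h3 q s p w r w' h hpw hrw
      ⟨hpq.ne', hw.2.1.symm, hdj.2.1.symm, hw.2.2.2.symm⟩ ⟨hdj.2.2.1, hw'.2.1.symm, hrs.ne', hw'.2.2.2.symm⟩
      ⟨hdj.1, hw'.1.symm, hw.2.2.1, hne⟩
    have c1 : ∀ x y, G.Adj x y → (x = p ∨ x = q ∨ x = w) → (y = p ∨ y = q ∨ y = w) := by
      intro x y hxy hx
      rcases out_or p q r s y with h | h | h | h | h
      · rcases hx with hx | hx | hx
        · rw [hx] at hxy; exact Or.inr (Or.inr (hp y h hxy))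
        · rw [hx] at hxy; exact Or.inr (Or.inr (hq y h hxy))
        · rw [hx] at hxy; exact absurd hxy (ind _ _ hw h)
      · exact Or.inl h
      · exact Or.inr (Or.inl h)
      · exfalso
        rcases hx with hx | hx | hx <;> rw [hx, h] at hxy
        · exact npr hxy
        · exact nqr hxy
        · exact hne (hr w hw hxy.symm)
      · exfalso
        rcases hx with hx | hx | hx <;> rw [hx, h] at hxy
        · exact nps hxy
        · exact nqs hxy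
        · exact hne (hs w hw hxy.symm)
    have c2 : ∀ x y, G.Adj x y → ¬ (x = p ∨ x = q ∨ x = w) → (x = r ∨ x = s ∨ x = w') := by
      intro x y hxy hx
      push Not at hx
      rcases out_or p q r s x with h | h | h | h | h
      · rcases out_or p q r s y with h' | h' | h' | h' | h'
        · exact absurd hxy (ind _ _ h h')
        · rw [h'] at hxy; exact absurd (hp x h hxy.symm) hx.2.2
        · rw [h'] at hxy; exact absurd (hq x h hxy.symm) hx.2.2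
        · rw [h'] at hxy; exact Or.inr (Or.inr (hr x h hxy.symm))
        · rw [h'] at hxy; exact Or.inr (Or.inr (hs x h hxy.symm))
      · exact absurd h hx.1
      · exact absurd h hx.2.1
      · exact Or.inl h
      · exact Or.inr (Or.inl h)
    have four : ∀ x y z : β, (a = x ∨ a = y ∨ a = z) → (b = x ∨ b = y ∨ b = z) →
        (c = x ∨ c = y ∨ c = z) → (d = x ∨ d = y ∨ d = z) → False := by
      intro x y z h1 h2 h3 h4
      have n1 := hab.ne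
      have n2 := hbc.ne
      have n3 := hcd.ne
      rcases h1 with h1 | h1 | h1 <;> rcases h2 with h2 | h2 | h2 <;>
        rcases h3 with h3 | h3 | h3 <;> rcases h4 with h4 | h4 | h4 <;>
        first
          | exact n1 (h1.trans h2.symm)
          | exact n2 (h2.trans h3.symm)
          | exact n3 (h3.trans h4.symm)
          | exact hac (h1.trans h3.symm)
          | exact had (h1.trans h4.symm)
          | exact hbd (h2.trans h4.symm)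
    by_cases ha : a = p ∨ a = q ∨ a = w
    · have hb := c1 a b hab ha
      have hc := c1 b c hbc hb
      have hd := c1 c d hcd hc
      exact four p q w ha hb hc hd
    · have hb : ¬ (b = p ∨ b = q ∨ b = w) := fun h => ha (c1 b a hab.symm h)
      have hc : ¬ (c = p ∨ c = q ∨ c = w) := fun h => hb (c1 c b hbc.symm h)
      have hd : ¬ (d = p ∨ d = q ∨ d = w) := fun h => hc (c1 d c hcd.symm h)
      exact four r s w' (c2 a b hab ha) (c2 b c hbc hb) (c2 c d hcd hc) (c2 d c hcd.symm hd)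
  · -- s has no outside neighbour
    have hs' : ∀ i, Out p q r s i → ¬ G.Adj s i := by
      intro i hi hsi
      have := hs i hi hsi
      rw [this] at hsi
      exact hsw hsi
    have inn : ∀ x y, G.Adj x y → x ≠ r → y ≠ r → x ≠ s → y ≠ s → (x = p ∨ x = q ∨ x = w) := by
      intro x y hxy a1 a2 a3 a4
      rcases out_or p q r s x with h | h | h | h | h
      · rcases out_or p q r s y with h' | h' | h' | h' | h'
        · exact absurd hxy (ind _ _ h h')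
        · rw [h'] at hxy; exact Or.inr (Or.inr (hp x h hxy.symm))
        · rw [h'] at hxy; exact Or.inr (Or.inr (hq x h hxy.symm))
        · exact absurd h' a2
        · exact absurd h' a4
      · exact Or.inl h
      · exact Or.inr (Or.inl h)
      · exact absurd h a1
      · exact absurd h a3
    have ns : ∀ z, G.Adj s z → z ≠ r → False := by
      intro z hz hzr
      rcases out_or p q r s z with h | h | h | h | h
      · exact hs' z h hz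
      · rw [h] at hz
        exact h3 s p q w r w' hz hqw hrw ⟨hdj.2.2.2.symm, hw.2.2.2.symm, hpq.ne, hw.1.symm⟩
          ⟨hrs.ne', hw'.2.2.2.symm, hdj.1, hw'.1.symm⟩ ⟨hdj.2.2.1, hw'.2.1.symm, hw.2.2.1, hne⟩
      · rw [h] at hz
        exact h3 s q p w r w' hz hpw hrw ⟨hdj.2.1.symm, hw.2.2.2.symm, hpq.ne', hw.2.1.symm⟩
          ⟨hrs.ne', hw'.2.2.2.symm, hdj.2.2.1, hw'.2.1.symm⟩ ⟨hdj.1, hw'.1.symm, hw.2.2.1, hne⟩
      · exact hzr h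
      · rw [h] at hz; exact G.loopless.irrefl _ hz
    obtain ⟨x1, y1, x2, y2, k1, k2, ⟨d1, d2, d3, d4⟩, n1, n2, n3, n4⟩ := h2r
    have e1 : x1 ≠ s := by rintro rfl; exact ns y1 k1 n2
    have e2 : y1 ≠ s := by rintro rfl; exact ns x1 k1.symm n1
    have e3 : x2 ≠ s := by rintro rfl; exact ns y2 k2 n4
    have e4 : y2 ≠ s := by rintro rfl; exact ns x2 k2.symm n3
    have f1 := inn x1 y1 k1 n1 n2 e1 e2
    have f2 := inn y1 x1 k1.symm n2 n1 e2 e1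
    have f3 := inn x2 y2 k2 n3 n4 e3 e4
    have f4 := inn y2 x2 k2.symm n4 n3 e4 e3
    have n12 := k1.ne
    have n34 := k2.ne
    rcases f1 with f1 | f1 | f1 <;> rcases f2 with f2 | f2 | f2 <;>
        rcases f3 with f3 | f3 | f3 <;> rcases f4 with f4 | f4 | f4 <;>
        first
          | exact d1 (f1.trans f3.symm)
          | exact d2 (f1.trans f4.symm)
          | exact d3 (f2.trans f3.symm)
          | exact d4 (f2.trans f4.symm)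
          | exact n12 (f1.trans f2.symm)
          | exact n34 (f3.trans f4.symm)

lemma caseII' {β : Type} (G : SimpleGraph β) (h3 : No3 G) (p q r s w w' : β)
    (h2r : Av2 G r) (h2s : Av2 G s)
    (hpq : G.Adj p q) (hrs : G.Adj r s) (hdj : Dj p q r s)
    (a b c d : β) (hab : G.Adj a b) (hbc : G.Adj b c) (hcd : G.Adj c d) (hac : a ≠ c)
    (had : a ≠ d) (hbd : b ≠ d)
    (hw : Out p q r s w) (hw' : Out p q r s w') (hne : w ≠ w') (nw : ∃ y, G.Adj w y)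
    (nw' : ∃ y, G.Adj w' y)
    (hp : ∃ i, Out p q r s i ∧ G.Adj p i) (hq : ∃ i, Out p q r s i ∧ G.Adj q i) : False := by
  have ind := ind h3 hpq hrs hdj
  obtain ⟨i, hi, hpi⟩ := hp
  obtain ⟨j, hj, hqj⟩ := hq
  have key : ∀ i j, Out p q r s i → Out p q r s j → G.Adj p i → G.Adj q j → i = j := by
    intro i j hi hj hpi hqj
    by_contra hh
    exact h3 p i q j r s hpi hqj hrs ⟨hpq.ne, hj.1.symm, hi.2.1, hh⟩
      ⟨hdj.1, hdj.2.1, hi.2.2.1, hi.2.2.2⟩ ⟨hdj.2.2.1, hdj.2.2.2, hj.2.2.1, hj.2.2.2⟩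
  have hij := key i j hi hj hpi hqj
  subst hij
  have fin : ∀ w, Out p q r s w → w ≠ i → (∃ y, G.Adj w y) → False := by
    intro w hw hwi ⟨y, hy⟩
    rcases out_or p q r s y with h | h | h | h | h
    · exact ind _ _ hw h hy
    · rw [h] at hy; exact hwi (key w i hw hi hy.symm hqj)
    · rw [h] at hy; exact hwi (key i w hi hw hpi hy.symm).symm
    · rw [h] at hy
      exact caseII G h3 p q r s i w h2r hpq hrs hdj a b c d hab hbc hcd hac had hbd hi hw hwi.symm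
        hpi hqj hy.symm
    · rw [h] at hy
      exact caseII G h3 p q s r i w h2s hpq hrs.symm hdj.swap_right a b c d hab hbc hcd hac had hbd
        ⟨hi.1, hi.2.1, hi.2.2.2, hi.2.2.1⟩ ⟨hw.1, hw.2.1, hw.2.2.2, hw.2.2.1⟩ hwi.symm
        hpi hqj hy.symm
  by_cases hwi : w = i
  · exact fin w' hw' (fun h => hne (hwi.trans h.symm)) nw'
  · exact fin w hw hwi nw

lemma no_two_out {β : Type} (G : SimpleGraph β) (h3 : No3 G)
    (h2 : ∀ x, (∃ y, G.Adj x y) → Av2 G x) (p q r s w w' : β)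
    (hpq : G.Adj p q) (hrs : G.Adj r s) (hdj : Dj p q r s)
    (a b c d : β) (hab : G.Adj a b) (hbc : G.Adj b c) (hcd : G.Adj c d) (hac : a ≠ c)
    (had : a ≠ d) (hbd : b ≠ d)
    (hw : Out p q r s w) (hw' : Out p q r s w') (hne : w ≠ w') (nw : ∃ y, G.Adj w y)
    (nw' : ∃ y, G.Adj w' y) : False := by
  have h2p := h2 p ⟨q, hpq⟩
  have h2q := h2 q ⟨p, hpq.symm⟩
  have h2r := h2 r ⟨s, hrs⟩
  have h2s := h2 s ⟨r, hrs.symm⟩
  have sw : ∀ i, Out r s p q i ↔ Out p q r s i := by intro i; unfold Out; tauto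
  by_cases A : (∃ i, Out p q r s i ∧ G.Adj p i) ∧ (∃ i, Out p q r s i ∧ G.Adj q i)
  · exact caseII' G h3 p q r s w w' h2r h2s hpq hrs hdj a b c d hab hbc hcd hac had hbd hw hw' hne
      nw nw' A.1 A.2
  by_cases B : (∃ i, Out p q r s i ∧ G.Adj r i) ∧ (∃ i, Out p q r s i ∧ G.Adj s i)
  · refine caseII' G h3 r s p q w w' h2p h2q hrs hpq hdj.symm a b c d hab hbc hcd hac had hbd
      ((sw _).2 hw) ((sw _).2 hw') hne nw nw' ?_ ?_
    · obtain ⟨i, hi, h⟩ := B.1; exact ⟨i, (sw _).2 hi, h⟩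
    · obtain ⟨i, hi, h⟩ := B.2; exact ⟨i, (sw _).2 hi, h⟩
  have A' : (∀ i, Out p q r s i → ¬ G.Adj p i) ∨ (∀ i, Out p q r s i → ¬ G.Adj q i) := by
    by_contra hh
    push Not at hh
    exact A hh
  have B' : (∀ i, Out p q r s i → ¬ G.Adj r i) ∨ (∀ i, Out p q r s i → ¬ G.Adj s i) := by
    by_contra hh
    push Not at hh
    exact B hh
  rcases A' with A' | A' <;> rcases B' with B' | B'
  · have sw' : ∀ i, Out q p s r i ↔ Out p q r s i := by intro i; unfold Out; tauto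
    exact caseI G h3 q p s r w w' h2q h2s hpq.symm hrs.symm hdj.swap_left.swap_right
      ((sw' _).2 hw) ((sw' _).2 hw') hne nw nw' (fun i hi => A' i ((sw' _).1 hi))
      (fun i hi => B' i ((sw' _).1 hi))
  · have sw' : ∀ i, Out q p r s i ↔ Out p q r s i := by intro i; unfold Out; tauto
    exact caseI G h3 q p r s w w' h2q h2r hpq.symm hrs hdj.swap_left
      ((sw' _).2 hw) ((sw' _).2 hw') hne nw nw' (fun i hi => A' i ((sw' _).1 hi))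
      (fun i hi => B' i ((sw' _).1 hi))
  · have sw' : ∀ i, Out p q s r i ↔ Out p q r s i := by intro i; unfold Out; tauto
    exact caseI G h3 p q s r w w' h2p h2s hpq hrs.symm hdj.swap_right
      ((sw' _).2 hw) ((sw' _).2 hw') hne nw nw' (fun i hi => A' i ((sw' _).1 hi))
      (fun i hi => B' i ((sw' _).1 hi))
  · exact caseI G h3 p q r s w w' h2p h2r hpq hrs hdj hw hw' hne nw nw' A' B'

lemma five_copy {β : Type} [DecidableEq β] (G : SimpleGraph β) (hs : IsSat PK G) (u v : β)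
    (huv : u ≠ v) (hu : ∀ x, ¬ G.Adj u x) (hv : ∀ x, ¬ G.Adj v x) :
    (⊤ : SimpleGraph (Fin 5)).IsContained G := by
  obtain ⟨hc, hadd⟩ := hs
  have hno : ∀ a b c d p q, ¬ Cop G a b c d p q := by
    intro a b c d p q h
    exact hc ((isContained_iff G).2 ⟨a, b, c, d, p, q, h⟩)
  obtain ⟨a, b, c, d, hab, hbc, hcd, hac, had, hbd⟩ :=
    exists_path G u v hu hv (hadd u v huv (hu v))
  have h3 : No3 G := fun x1 y1 x2 y2 x3 y3 => no_three G hno a b c d hab hbc hcd hac had hbd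
    x1 y1 x2 y2 x3 y3
  have nu : ∀ x, (∃ y, G.Adj x y) → x ≠ u := by
    rintro x ⟨y, hy⟩ rfl
    exact hu y hy
  have h2 : ∀ x, (∃ y, G.Adj x y) → Av2 G x := by
    intro x hx
    obtain ⟨r, s, t, w, k1, k2, k3, k4, k5, k6, k7, k8, k9, k10⟩ := exists_two G x u
      (hadd x u (nu x hx) (fun h => hu x h.symm))
    exact ⟨r, s, t, w, k1, k2, ⟨k3, k4, k5, k6⟩, k7, k8, k9, k10⟩
  -- a matching
  obtain ⟨p, q, r, s, hpq, hrs, hdj, -⟩ := h2 a ⟨b, hab⟩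
  -- the non-isolated vertices
  have hS : ∃ w, ∀ x, (∃ y, G.Adj x y) → x = p ∨ x = q ∨ x = r ∨ x = s ∨ x = w := by
    by_cases hex : ∃ w, Out p q r s w ∧ ∃ y, G.Adj w y
    · obtain ⟨w, hw, nw⟩ := hex
      refine ⟨w, fun x hx => ?_⟩
      rcases out_or p q r s x with h | h | h | h | h
      · by_contra hh
        push Not at hh
        exact no_two_out G h3 h2 p q r s w x hpq hrs hdj a b c d hab hbc hcd hac had hbd hw h
          hh.2.2.2.2.symm nw hx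
      · exact Or.inl h
      · exact Or.inr (Or.inl h)
      · exact Or.inr (Or.inr (Or.inl h))
      · exact Or.inr (Or.inr (Or.inr (Or.inl h)))
    · push Not at hex
      refine ⟨p, fun x hx => ?_⟩
      rcases out_or p q r s x with h | h | h | h | h
      · obtain ⟨y, hy⟩ := hx
        exact absurd hy (hex x h y)
      · exact Or.inl h
      · exact Or.inr (Or.inl h)
      · exact Or.inr (Or.inr (Or.inl h))
      · exact Or.inr (Or.inr (Or.inr (Or.inl h)))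
  obtain ⟨w, hS⟩ := hS
  -- vertices of copies
  have cov : ∀ x y : β, ∀ f : Copy PK (G ⊔ edge x y), ∀ i : Fin 6,
      (∃ z, G.Adj (f i) z) ∨ f i = x ∨ f i = y := by
    intro x y f i
    have : ∃ j, PK.Adj i j := by
      have h := pk_adj i
      fin_cases i
      · exact ⟨1, (h 1).2 (by decide)⟩
      · exact ⟨0, (h 0).2 (by decide)⟩
      · exact ⟨1, (h 1).2 (by decide)⟩
      · exact ⟨2, (h 2).2 (by decide)⟩
      · exact ⟨5, (h 5).2 (by decide)⟩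
      · exact ⟨4, (h 4).2 (by decide)⟩
    obtain ⟨j, hj⟩ := this
    rcases adj_sup G x y _ _ (f.toHom.map_rel hj) with h | h | h
    · exact Or.inl ⟨_, h⟩
    · exact Or.inr (Or.inl h.1)
    · exact Or.inr (Or.inr h.1)
  -- complete
  have compl : ∀ x y, (∃ z, G.Adj x z) → (∃ z, G.Adj y z) → x ≠ y → G.Adj x y := by
    intro x y hx hy hxy
    by_contra hh
    obtain ⟨f⟩ := hadd x y hxy hh
    have hall : ∀ i, f i ∈ ({p, q, r, s, w} : Finset β) := by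
      intro i
      have : ∃ z, G.Adj (f i) z := by
        rcases cov x y f i with h | h | h
        · exact h
        · rw [h]; exact hx
        · rw [h]; exact hy
      have := hS _ this
      simp only [Finset.mem_insert, Finset.mem_singleton]
      exact this
    have hinj : Function.Injective (f : Fin 6 → β) := f.injective
    have h1 : (Finset.univ.image f).card = 6 := by
      rw [Finset.card_image_of_injective _ hinj]; simp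
    have h2 : Finset.univ.image f ⊆ ({p, q, r, s, w} : Finset β) := by
      intro z hz
      obtain ⟨i, -, rfl⟩ := Finset.mem_image.1 hz
      exact hall i
    have h3 := Finset.card_le_card h2
    have h4 : ({p, q, r, s, w} : Finset β).card ≤ 5 := Finset.card_le_five
    omega
  -- five vertices
  obtain ⟨f⟩ := hadd a u (nu a ⟨b, hab⟩) (fun h => hu a h.symm)
  have hinj : Function.Injective (f : Fin 6 → β) := f.injective
  have h6 : (Finset.univ.image f).card = 6 := by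
    rw [Finset.card_image_of_injective _ hinj]; simp
  have h5 : 5 ≤ ((Finset.univ.image f).erase u).card := by
    have := Finset.pred_card_le_card_erase (s := Finset.univ.image f) (a := u)
    omega
  obtain ⟨T, hT, hT5⟩ := Finset.exists_subset_card_eq h5
  have hTn : ∀ x ∈ T, ∃ z, G.Adj x z := by
    intro x hx
    have hx' := hT hx
    rw [Finset.mem_erase] at hx'
    obtain ⟨hxu, hx'⟩ := hx'
    obtain ⟨i, -, rfl⟩ := Finset.mem_image.1 hx'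
    rcases cov a u f i with h | h | h
    · exact h
    · rw [h]; exact ⟨b, hab⟩
    · exact absurd h hxu
  have e : Fin 5 ≃ T := (Finset.equivFinOfCardEq hT5).symm
  exact ⟨⟨⟨fun i => (e i : β), by
      intro i j hij
      apply compl _ _ (hTn _ (e i).2) (hTn _ (e j).2)
      intro h
      exact hij.ne (e.injective (Subtype.ext h))⟩, by
      intro i j hij
      exact e.injective (Subtype.ext hij)⟩⟩

lemma ten_le {β : Type} [Fintype β] [DecidableEq β] (G : SimpleGraph β) (hs : IsSat PK G) (u v : β)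
    (huv : u ≠ v) (hu : ∀ x, ¬ G.Adj u x) (hv : ∀ x, ¬ G.Adj v x) :
    10 ≤ G.edgeSet.ncard := by
  obtain ⟨f⟩ := five_copy G hs u v huv hu hv
  have h1 : Nat.card (⊤ : SimpleGraph (Fin 5)).edgeSet ≤ Nat.card G.edgeSet :=
    Nat.card_le_card_of_injective _ f.mapEdgeSet.injective
  have h2 : Nat.card (⊤ : SimpleGraph (Fin 5)).edgeSet = 10 := by
    rw [Nat.card_eq_fintype_card, ← edgeFinset_card]
    decide
  rw [h2] at h1
  exact h1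


/-! ### the rainbow part -/

/-- Adjacency of the small graph: a triangle `4, 5, 6` and two four-cycles `6, 0, 3, 4` and
`6, 1, 2, 5`. -/
def ad (x y : ℕ) : Bool :=
  [(1, 2), (0, 3), (3, 4), (2, 5), (4, 5), (0, 6), (1, 6), (4, 6), (5, 6)].any
    fun e => (e.1 == x && e.2 == y) || (e.1 == y && e.2 == x)

/-- A coloured graph containing the small graph, without rainbow copies. -/
structure Ctx {β : Type} (H : SimpleGraph β) (φ : Sym2 β → ℕ) (j : Fin 9 → β) : Prop where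
  inj : Function.Injective j
  base : ∀ a b : Fin 9, ad a b = true → H.Adj (j a) (j b)
  prop : ∀ a b c : Fin 9, H.Adj (j a) (j b) → H.Adj (j a) (j c) → b ≠ c →
    φ s(j a, j b) ≠ φ s(j a, j c)
  nor : ∀ a b c d p q : Fin 9, Dist6 a b c d p q → H.Adj (j a) (j b) → H.Adj (j b) (j c) →
    H.Adj (j c) (j d) → H.Adj (j p) (j q) → ¬ Rb φ (j a) (j b) (j c) (j d) (j p) (j q)

lemma patt {c12 c03 c34 c25 c45 c06 c16 c46 c56 : ℕ}
    (p1 : c12 ≠ c25)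
    (p2 : c12 ≠ c16)
    (p3 : c03 ≠ c34)
    (p4 : c03 ≠ c06)
    (p5 : c34 ≠ c45)
    (p6 : c34 ≠ c46)
    (p7 : c25 ≠ c45)
    (p8 : c25 ≠ c56)
    (p9 : c45 ≠ c46)
    (p10 : c45 ≠ c56)
    (p11 : c06 ≠ c16)
    (p12 : c06 ≠ c46)
    (p13 : c06 ≠ c56)
    (p14 : c16 ≠ c46)
    (p15 : c16 ≠ c56)
    (p16 : c46 ≠ c56)
    (q1 : ¬ (c25 ≠ c12 ∧ c25 ≠ c16 ∧ c25 ≠ c34 ∧ c12 ≠ c16 ∧ c12 ≠ c34 ∧ c16 ≠ c34))
    (q2 : ¬ (c16 ≠ c56 ∧ c16 ≠ c25 ∧ c16 ≠ c34 ∧ c56 ≠ c25 ∧ c56 ≠ c34 ∧ c25 ≠ c34))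
    (q3 : ¬ (c12 ≠ c16 ∧ c12 ≠ c56 ∧ c12 ≠ c34 ∧ c16 ≠ c56 ∧ c16 ≠ c34 ∧ c56 ≠ c34))
    (q4 : ¬ (c06 ≠ c46 ∧ c06 ≠ c45 ∧ c06 ≠ c12 ∧ c46 ≠ c45 ∧ c46 ≠ c12 ∧ c45 ≠ c12))
    (q5 : ¬ (c03 ≠ c06 ∧ c03 ≠ c46 ∧ c03 ≠ c25 ∧ c06 ≠ c46 ∧ c06 ≠ c25 ∧ c46 ≠ c25))
    (q6 : ¬ (c06 ≠ c46 ∧ c06 ≠ c34 ∧ c06 ≠ c25 ∧ c46 ≠ c34 ∧ c46 ≠ c25 ∧ c34 ≠ c25))
    (q7 : ¬ (c12 ≠ c25 ∧ c12 ≠ c56 ∧ c12 ≠ c34 ∧ c25 ≠ c56 ∧ c25 ≠ c34 ∧ c56 ≠ c34))
    (q8 : ¬ (c34 ≠ c03 ∧ c34 ≠ c06 ∧ c34 ≠ c25 ∧ c03 ≠ c06 ∧ c03 ≠ c25 ∧ c06 ≠ c25))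
    (q9 : ¬ (c16 ≠ c56 ∧ c16 ≠ c45 ∧ c16 ≠ c03 ∧ c56 ≠ c45 ∧ c56 ≠ c03 ∧ c45 ≠ c03)) :
    c12 = c34 ∧ c12 = c06 ∧ c03 = c25 ∧ c03 = c16 ∧ c12 ≠ c03 ∧ c12 ≠ c45 ∧ c12 ≠ c46 ∧
      c12 ≠ c56 ∧ c03 ≠ c45 ∧ c03 ≠ c46 ∧ c03 ≠ c56 ∧ c45 ≠ c46 ∧ c45 ≠ c56 ∧ c46 ≠ c56 := by
  grind (splits := 40)

/-- The colour of a pair, with the pair in increasing order. -/
def cc {β : Type} (φ : Sym2 β → ℕ) (j : Fin 9 → β) (a b : Fin 9) : ℕ :=
  if a ≤ b then φ s(j a, j b) else φ s(j b, j a)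

lemma cc_eq {β : Type} (φ : Sym2 β → ℕ) (j : Fin 9 → β) (a b : Fin 9) :
    φ s(j a, j b) = cc φ j a b := by
  unfold cc
  split_ifs
  · rfl
  · rw [Sym2.eq_swap]

lemma Ctx.nor' {β : Type} {H : SimpleGraph β} {φ : Sym2 β → ℕ} {j : Fin 9 → β} (h : Ctx H φ j)
    (a b c d p q : Fin 9) (hd : Dist6 a b c d p q) (h1 : H.Adj (j a) (j b))
    (h2 : H.Adj (j b) (j c)) (h3 : H.Adj (j c) (j d)) (h4 : H.Adj (j p) (j q)) :
    ¬ (cc φ j a b ≠ cc φ j b c ∧ cc φ j a b ≠ cc φ j c d ∧ cc φ j a b ≠ cc φ j p q ∧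
      cc φ j b c ≠ cc φ j c d ∧ cc φ j b c ≠ cc φ j p q ∧ cc φ j c d ≠ cc φ j p q) := by
  have := h.nor a b c d p q hd h1 h2 h3 h4
  unfold Rb at this
  simp only [cc_eq] at this
  exact this

lemma Ctx.prop' {β : Type} {H : SimpleGraph β} {φ : Sym2 β → ℕ} {j : Fin 9 → β} (h : Ctx H φ j)
    (a b c : Fin 9) (h1 : H.Adj (j a) (j b)) (h2 : H.Adj (j a) (j c)) (hbc : b ≠ c) :
    cc φ j a b ≠ cc φ j a c := by
  have := h.prop a b c h1 h2 hbc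
  simp only [cc_eq] at this
  exact this

lemma Ctx.pattern {β : Type} {H : SimpleGraph β} {φ : Sym2 β → ℕ} {j : Fin 9 → β}
    (h : Ctx H φ j) :
    φ s(j 1, j 2) = φ s(j 3, j 4) ∧ φ s(j 1, j 2) = φ s(j 0, j 6) ∧ φ s(j 0, j 3) = φ s(j 2, j 5) ∧ φ s(j 0, j 3) = φ s(j 1, j 6) ∧
      φ s(j 1, j 2) ≠ φ s(j 0, j 3) ∧
      φ s(j 1, j 2) ≠ φ s(j 4, j 5) ∧
      φ s(j 1, j 2) ≠ φ s(j 4, j 6) ∧
      φ s(j 1, j 2) ≠ φ s(j 5, j 6) ∧
      φ s(j 0, j 3) ≠ φ s(j 4, j 5) ∧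
      φ s(j 0, j 3) ≠ φ s(j 4, j 6) ∧
      φ s(j 0, j 3) ≠ φ s(j 5, j 6) ∧
      φ s(j 4, j 5) ≠ φ s(j 4, j 6) ∧
      φ s(j 4, j 5) ≠ φ s(j 5, j 6) ∧
      φ s(j 4, j 6) ≠ φ s(j 5, j 6) := by
  refine patt
    (h.prop' 2 1 5 (h.base 2 1 rfl) (h.base 2 5 rfl) (by decide))
    (h.prop' 1 2 6 (h.base 1 2 rfl) (h.base 1 6 rfl) (by decide))
    (h.prop' 3 0 4 (h.base 3 0 rfl) (h.base 3 4 rfl) (by decide))
    (h.prop' 0 3 6 (h.base 0 3 rfl) (h.base 0 6 rfl) (by decide))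
    (h.prop' 4 3 5 (h.base 4 3 rfl) (h.base 4 5 rfl) (by decide))
    (h.prop' 4 3 6 (h.base 4 3 rfl) (h.base 4 6 rfl) (by decide))
    (h.prop' 5 2 4 (h.base 5 2 rfl) (h.base 5 4 rfl) (by decide))
    (h.prop' 5 2 6 (h.base 5 2 rfl) (h.base 5 6 rfl) (by decide))
    (h.prop' 4 5 6 (h.base 4 5 rfl) (h.base 4 6 rfl) (by decide))
    (h.prop' 5 4 6 (h.base 5 4 rfl) (h.base 5 6 rfl) (by decide))
    (h.prop' 6 0 1 (h.base 6 0 rfl) (h.base 6 1 rfl) (by decide))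
    (h.prop' 6 0 4 (h.base 6 0 rfl) (h.base 6 4 rfl) (by decide))
    (h.prop' 6 0 5 (h.base 6 0 rfl) (h.base 6 5 rfl) (by decide))
    (h.prop' 6 1 4 (h.base 6 1 rfl) (h.base 6 4 rfl) (by decide))
    (h.prop' 6 1 5 (h.base 6 1 rfl) (h.base 6 5 rfl) (by decide))
    (h.prop' 6 4 5 (h.base 6 4 rfl) (h.base 6 5 rfl) (by decide))
    (h.nor' 5 2 1 6 3 4 (by unfold Dist6; decide) (h.base 5 2 rfl) (h.base 2 1 rfl) (h.base 1 6 rfl) (h.base 3 4 rfl))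
    (h.nor' 1 6 5 2 3 4 (by unfold Dist6; decide) (h.base 1 6 rfl) (h.base 6 5 rfl) (h.base 5 2 rfl) (h.base 3 4 rfl))
    (h.nor' 2 1 6 5 3 4 (by unfold Dist6; decide) (h.base 2 1 rfl) (h.base 1 6 rfl) (h.base 6 5 rfl) (h.base 3 4 rfl))
    (h.nor' 0 6 4 5 1 2 (by unfold Dist6; decide) (h.base 0 6 rfl) (h.base 6 4 rfl) (h.base 4 5 rfl) (h.base 1 2 rfl))
    (h.nor' 3 0 6 4 2 5 (by unfold Dist6; decide) (h.base 3 0 rfl) (h.base 0 6 rfl) (h.base 6 4 rfl) (h.base 2 5 rfl))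
    (h.nor' 0 6 4 3 2 5 (by unfold Dist6; decide) (h.base 0 6 rfl) (h.base 6 4 rfl) (h.base 4 3 rfl) (h.base 2 5 rfl))
    (h.nor' 1 2 5 6 3 4 (by unfold Dist6; decide) (h.base 1 2 rfl) (h.base 2 5 rfl) (h.base 5 6 rfl) (h.base 3 4 rfl))
    (h.nor' 4 3 0 6 2 5 (by unfold Dist6; decide) (h.base 4 3 rfl) (h.base 3 0 rfl) (h.base 0 6 rfl) (h.base 2 5 rfl))
    (h.nor' 1 6 5 4 0 3 (by unfold Dist6; decide) (h.base 1 6 rfl) (h.base 6 5 rfl) (h.base 5 4 rfl) (h.base 0 3 rfl))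

lemma Ctx.case01 {β : Type} {H : SimpleGraph β} {φ : Sym2 β → ℕ} {j : Fin 9 → β}
    (h : Ctx H φ j) (he : H.Adj (j 0) (j 1)) : False := by
  obtain ⟨a1, a2, a3, a4, b1, b2, b3, b4, b5, b6, b7, b8, b9, b10⟩ := h.pattern
  have f1 : φ s(j 0, j 1) ≠ φ s(j 1, j 2) := h.prop' 1 0 2 he.symm (h.base 1 2 rfl) (by decide)
  have f2 : φ s(j 0, j 1) ≠ φ s(j 0, j 3) := h.prop' 0 1 3 he (h.base 0 3 rfl) (by decide)
  have f3 : φ s(j 0, j 1) ≠ φ s(j 0, j 6) := h.prop' 0 1 6 he (h.base 0 6 rfl) (by decide)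
  have f4 : φ s(j 0, j 1) ≠ φ s(j 1, j 6) := h.prop' 1 0 6 he.symm (h.base 1 6 rfl) (by decide)
  have f5 : ¬ (φ s(j 0, j 1) ≠ φ s(j 1, j 2) ∧ φ s(j 0, j 1) ≠ φ s(j 2, j 5) ∧ φ s(j 0, j 1) ≠ φ s(j 4, j 6) ∧ φ s(j 1, j 2) ≠ φ s(j 2, j 5) ∧ φ s(j 1, j 2) ≠ φ s(j 4, j 6) ∧ φ s(j 2, j 5) ≠ φ s(j 4, j 6)) :=
    h.nor' 0 1 2 5 4 6 (by unfold Dist6; decide) he (h.base 1 2 rfl) (h.base 2 5 rfl) (h.base 4 6 rfl)
  have f6 : ¬ (φ s(j 0, j 1) ≠ φ s(j 1, j 6) ∧ φ s(j 0, j 1) ≠ φ s(j 5, j 6) ∧ φ s(j 0, j 1) ≠ φ s(j 3, j 4) ∧ φ s(j 1, j 6) ≠ φ s(j 5, j 6) ∧ φ s(j 1, j 6) ≠ φ s(j 3, j 4) ∧ φ s(j 5, j 6) ≠ φ s(j 3, j 4)) :=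
    h.nor' 0 1 6 5 3 4 (by unfold Dist6; decide) he (h.base 1 6 rfl) (h.base 6 5 rfl) (h.base 3 4 rfl)
  generalize φ s(j 1, j 2) = c12, φ s(j 0, j 3) = c03, φ s(j 3, j 4) = c34, φ s(j 2, j 5) = c25, φ s(j 4, j 5) = c45, φ s(j 0, j 6) = c06, φ s(j 1, j 6) = c16, φ s(j 4, j 6) = c46, φ s(j 5, j 6) = c56, φ s(j 0, j 1) = c01 at *
  grind (splits := 40)

lemma Ctx.case02 {β : Type} {H : SimpleGraph β} {φ : Sym2 β → ℕ} {j : Fin 9 → β}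
    (h : Ctx H φ j) (he : H.Adj (j 0) (j 2)) : False := by
  obtain ⟨a1, a2, a3, a4, b1, b2, b3, b4, b5, b6, b7, b8, b9, b10⟩ := h.pattern
  have f1 : φ s(j 0, j 2) ≠ φ s(j 1, j 2) := h.prop' 2 0 1 he.symm (h.base 2 1 rfl) (by decide)
  have f2 : φ s(j 0, j 2) ≠ φ s(j 0, j 3) := h.prop' 0 2 3 he (h.base 0 3 rfl) (by decide)
  have f3 : φ s(j 0, j 2) ≠ φ s(j 2, j 5) := h.prop' 2 0 5 he.symm (h.base 2 5 rfl) (by decide)
  have f4 : φ s(j 0, j 2) ≠ φ s(j 0, j 6) := h.prop' 0 2 6 he (h.base 0 6 rfl) (by decide)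
  have f5 : ¬ (φ s(j 0, j 2) ≠ φ s(j 1, j 2) ∧ φ s(j 0, j 2) ≠ φ s(j 1, j 6) ∧ φ s(j 0, j 2) ≠ φ s(j 4, j 5) ∧ φ s(j 1, j 2) ≠ φ s(j 1, j 6) ∧ φ s(j 1, j 2) ≠ φ s(j 4, j 5) ∧ φ s(j 1, j 6) ≠ φ s(j 4, j 5)) :=
    h.nor' 0 2 1 6 4 5 (by unfold Dist6; decide) he (h.base 2 1 rfl) (h.base 1 6 rfl) (h.base 4 5 rfl)
  have f6 : ¬ (φ s(j 0, j 2) ≠ φ s(j 2, j 5) ∧ φ s(j 0, j 2) ≠ φ s(j 5, j 6) ∧ φ s(j 0, j 2) ≠ φ s(j 3, j 4) ∧ φ s(j 2, j 5) ≠ φ s(j 5, j 6) ∧ φ s(j 2, j 5) ≠ φ s(j 3, j 4) ∧ φ s(j 5, j 6) ≠ φ s(j 3, j 4)) :=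
    h.nor' 0 2 5 6 3 4 (by unfold Dist6; decide) he (h.base 2 5 rfl) (h.base 5 6 rfl) (h.base 3 4 rfl)
  generalize φ s(j 1, j 2) = c12, φ s(j 0, j 3) = c03, φ s(j 3, j 4) = c34, φ s(j 2, j 5) = c25, φ s(j 4, j 5) = c45, φ s(j 0, j 6) = c06, φ s(j 1, j 6) = c16, φ s(j 4, j 6) = c46, φ s(j 5, j 6) = c56, φ s(j 0, j 2) = c02 at *
  grind (splits := 40)

lemma Ctx.case04 {β : Type} {H : SimpleGraph β} {φ : Sym2 β → ℕ} {j : Fin 9 → β}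
    (h : Ctx H φ j) (he : H.Adj (j 0) (j 4)) : False := by
  obtain ⟨a1, a2, a3, a4, b1, b2, b3, b4, b5, b6, b7, b8, b9, b10⟩ := h.pattern
  have f1 : φ s(j 0, j 4) ≠ φ s(j 0, j 3) := h.prop' 0 4 3 he (h.base 0 3 rfl) (by decide)
  have f2 : φ s(j 0, j 4) ≠ φ s(j 3, j 4) := h.prop' 4 0 3 he.symm (h.base 4 3 rfl) (by decide)
  have f3 : φ s(j 0, j 4) ≠ φ s(j 4, j 5) := h.prop' 4 0 5 he.symm (h.base 4 5 rfl) (by decide)
  have f4 : φ s(j 0, j 4) ≠ φ s(j 0, j 6) := h.prop' 0 4 6 he (h.base 0 6 rfl) (by decide)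
  have f5 : φ s(j 0, j 4) ≠ φ s(j 4, j 6) := h.prop' 4 0 6 he.symm (h.base 4 6 rfl) (by decide)
  have f6 : ¬ (φ s(j 0, j 3) ≠ φ s(j 0, j 4) ∧ φ s(j 0, j 3) ≠ φ s(j 4, j 5) ∧ φ s(j 0, j 3) ≠ φ s(j 1, j 2) ∧ φ s(j 0, j 4) ≠ φ s(j 4, j 5) ∧ φ s(j 0, j 4) ≠ φ s(j 1, j 2) ∧ φ s(j 4, j 5) ≠ φ s(j 1, j 2)) :=
    h.nor' 3 0 4 5 1 2 (by unfold Dist6; decide) (h.base 3 0 rfl) he (h.base 4 5 rfl) (h.base 1 2 rfl)
  generalize φ s(j 1, j 2) = c12, φ s(j 0, j 3) = c03, φ s(j 3, j 4) = c34, φ s(j 2, j 5) = c25, φ s(j 4, j 5) = c45, φ s(j 0, j 6) = c06, φ s(j 1, j 6) = c16, φ s(j 4, j 6) = c46, φ s(j 5, j 6) = c56, φ s(j 0, j 4) = c04 at *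
  grind (splits := 40)

lemma Ctx.case05 {β : Type} {H : SimpleGraph β} {φ : Sym2 β → ℕ} {j : Fin 9 → β}
    (h : Ctx H φ j) (he : H.Adj (j 0) (j 5)) : False := by
  obtain ⟨a1, a2, a3, a4, b1, b2, b3, b4, b5, b6, b7, b8, b9, b10⟩ := h.pattern
  have f1 : φ s(j 0, j 5) ≠ φ s(j 0, j 3) := h.prop' 0 5 3 he (h.base 0 3 rfl) (by decide)
  have f2 : φ s(j 0, j 5) ≠ φ s(j 2, j 5) := h.prop' 5 0 2 he.symm (h.base 5 2 rfl) (by decide)
  have f3 : φ s(j 0, j 5) ≠ φ s(j 4, j 5) := h.prop' 5 0 4 he.symm (h.base 5 4 rfl) (by decide)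
  have f4 : φ s(j 0, j 5) ≠ φ s(j 0, j 6) := h.prop' 0 5 6 he (h.base 0 6 rfl) (by decide)
  have f5 : φ s(j 0, j 5) ≠ φ s(j 5, j 6) := h.prop' 5 0 6 he.symm (h.base 5 6 rfl) (by decide)
  have f6 : ¬ (φ s(j 0, j 5) ≠ φ s(j 4, j 5) ∧ φ s(j 0, j 5) ≠ φ s(j 3, j 4) ∧ φ s(j 0, j 5) ≠ φ s(j 1, j 6) ∧ φ s(j 4, j 5) ≠ φ s(j 3, j 4) ∧ φ s(j 4, j 5) ≠ φ s(j 1, j 6) ∧ φ s(j 3, j 4) ≠ φ s(j 1, j 6)) :=
    h.nor' 0 5 4 3 1 6 (by unfold Dist6; decide) he (h.base 5 4 rfl) (h.base 4 3 rfl) (h.base 1 6 rfl)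
  generalize φ s(j 1, j 2) = c12, φ s(j 0, j 3) = c03, φ s(j 3, j 4) = c34, φ s(j 2, j 5) = c25, φ s(j 4, j 5) = c45, φ s(j 0, j 6) = c06, φ s(j 1, j 6) = c16, φ s(j 4, j 6) = c46, φ s(j 5, j 6) = c56, φ s(j 0, j 5) = c05 at *
  grind (splits := 40)

lemma Ctx.case13 {β : Type} {H : SimpleGraph β} {φ : Sym2 β → ℕ} {j : Fin 9 → β}
    (h : Ctx H φ j) (he : H.Adj (j 1) (j 3)) : False := by
  obtain ⟨a1, a2, a3, a4, b1, b2, b3, b4, b5, b6, b7, b8, b9, b10⟩ := h.pattern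
  have f1 : φ s(j 1, j 3) ≠ φ s(j 1, j 2) := h.prop' 1 3 2 he (h.base 1 2 rfl) (by decide)
  have f2 : φ s(j 1, j 3) ≠ φ s(j 0, j 3) := h.prop' 3 1 0 he.symm (h.base 3 0 rfl) (by decide)
  have f3 : φ s(j 1, j 3) ≠ φ s(j 3, j 4) := h.prop' 3 1 4 he.symm (h.base 3 4 rfl) (by decide)
  have f4 : φ s(j 1, j 3) ≠ φ s(j 1, j 6) := h.prop' 1 3 6 he (h.base 1 6 rfl) (by decide)
  have f5 : ¬ (φ s(j 0, j 3) ≠ φ s(j 1, j 3) ∧ φ s(j 0, j 3) ≠ φ s(j 1, j 2) ∧ φ s(j 0, j 3) ≠ φ s(j 4, j 5) ∧ φ s(j 1, j 3) ≠ φ s(j 1, j 2) ∧ φ s(j 1, j 3) ≠ φ s(j 4, j 5) ∧ φ s(j 1, j 2) ≠ φ s(j 4, j 5)) :=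
    h.nor' 0 3 1 2 4 5 (by unfold Dist6; decide) (h.base 0 3 rfl) he.symm (h.base 1 2 rfl) (h.base 4 5 rfl)
  have f6 : ¬ (φ s(j 0, j 3) ≠ φ s(j 1, j 3) ∧ φ s(j 0, j 3) ≠ φ s(j 1, j 2) ∧ φ s(j 0, j 3) ≠ φ s(j 4, j 6) ∧ φ s(j 1, j 3) ≠ φ s(j 1, j 2) ∧ φ s(j 1, j 3) ≠ φ s(j 4, j 6) ∧ φ s(j 1, j 2) ≠ φ s(j 4, j 6)) :=
    h.nor' 0 3 1 2 4 6 (by unfold Dist6; decide) (h.base 0 3 rfl) he.symm (h.base 1 2 rfl) (h.base 4 6 rfl)
  generalize φ s(j 1, j 2) = c12, φ s(j 0, j 3) = c03, φ s(j 3, j 4) = c34, φ s(j 2, j 5) = c25, φ s(j 4, j 5) = c45, φ s(j 0, j 6) = c06, φ s(j 1, j 6) = c16, φ s(j 4, j 6) = c46, φ s(j 5, j 6) = c56, φ s(j 1, j 3) = c13 at *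
  grind (splits := 40)

lemma Ctx.case14 {β : Type} {H : SimpleGraph β} {φ : Sym2 β → ℕ} {j : Fin 9 → β}
    (h : Ctx H φ j) (he : H.Adj (j 1) (j 4)) : False := by
  obtain ⟨a1, a2, a3, a4, b1, b2, b3, b4, b5, b6, b7, b8, b9, b10⟩ := h.pattern
  have f1 : φ s(j 1, j 4) ≠ φ s(j 1, j 2) := h.prop' 1 4 2 he (h.base 1 2 rfl) (by decide)
  have f2 : φ s(j 1, j 4) ≠ φ s(j 3, j 4) := h.prop' 4 1 3 he.symm (h.base 4 3 rfl) (by decide)
  have f3 : φ s(j 1, j 4) ≠ φ s(j 4, j 5) := h.prop' 4 1 5 he.symm (h.base 4 5 rfl) (by decide)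
  have f4 : φ s(j 1, j 4) ≠ φ s(j 1, j 6) := h.prop' 1 4 6 he (h.base 1 6 rfl) (by decide)
  have f5 : φ s(j 1, j 4) ≠ φ s(j 4, j 6) := h.prop' 4 1 6 he.symm (h.base 4 6 rfl) (by decide)
  have f6 : ¬ (φ s(j 0, j 6) ≠ φ s(j 4, j 6) ∧ φ s(j 0, j 6) ≠ φ s(j 1, j 4) ∧ φ s(j 0, j 6) ≠ φ s(j 2, j 5) ∧ φ s(j 4, j 6) ≠ φ s(j 1, j 4) ∧ φ s(j 4, j 6) ≠ φ s(j 2, j 5) ∧ φ s(j 1, j 4) ≠ φ s(j 2, j 5)) :=
    h.nor' 0 6 4 1 2 5 (by unfold Dist6; decide) (h.base 0 6 rfl) (h.base 6 4 rfl) he.symm (h.base 2 5 rfl)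
  generalize φ s(j 1, j 2) = c12, φ s(j 0, j 3) = c03, φ s(j 3, j 4) = c34, φ s(j 2, j 5) = c25, φ s(j 4, j 5) = c45, φ s(j 0, j 6) = c06, φ s(j 1, j 6) = c16, φ s(j 4, j 6) = c46, φ s(j 5, j 6) = c56, φ s(j 1, j 4) = c14 at *
  grind (splits := 40)

lemma Ctx.case15 {β : Type} {H : SimpleGraph β} {φ : Sym2 β → ℕ} {j : Fin 9 → β}
    (h : Ctx H φ j) (he : H.Adj (j 1) (j 5)) : False := by
  obtain ⟨a1, a2, a3, a4, b1, b2, b3, b4, b5, b6, b7, b8, b9, b10⟩ := h.pattern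
  have f1 : φ s(j 1, j 5) ≠ φ s(j 1, j 2) := h.prop' 1 5 2 he (h.base 1 2 rfl) (by decide)
  have f2 : φ s(j 1, j 5) ≠ φ s(j 2, j 5) := h.prop' 5 1 2 he.symm (h.base 5 2 rfl) (by decide)
  have f3 : φ s(j 1, j 5) ≠ φ s(j 4, j 5) := h.prop' 5 1 4 he.symm (h.base 5 4 rfl) (by decide)
  have f4 : φ s(j 1, j 5) ≠ φ s(j 1, j 6) := h.prop' 1 5 6 he (h.base 1 6 rfl) (by decide)
  have f5 : φ s(j 1, j 5) ≠ φ s(j 5, j 6) := h.prop' 5 1 6 he.symm (h.base 5 6 rfl) (by decide)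
  have f6 : ¬ (φ s(j 1, j 2) ≠ φ s(j 1, j 5) ∧ φ s(j 1, j 2) ≠ φ s(j 4, j 5) ∧ φ s(j 1, j 2) ≠ φ s(j 0, j 3) ∧ φ s(j 1, j 5) ≠ φ s(j 4, j 5) ∧ φ s(j 1, j 5) ≠ φ s(j 0, j 3) ∧ φ s(j 4, j 5) ≠ φ s(j 0, j 3)) :=
    h.nor' 2 1 5 4 0 3 (by unfold Dist6; decide) (h.base 2 1 rfl) he (h.base 5 4 rfl) (h.base 0 3 rfl)
  generalize φ s(j 1, j 2) = c12, φ s(j 0, j 3) = c03, φ s(j 3, j 4) = c34, φ s(j 2, j 5) = c25, φ s(j 4, j 5) = c45, φ s(j 0, j 6) = c06, φ s(j 1, j 6) = c16, φ s(j 4, j 6) = c46, φ s(j 5, j 6) = c56, φ s(j 1, j 5) = c15 at *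
  grind (splits := 40)

lemma Ctx.case23 {β : Type} {H : SimpleGraph β} {φ : Sym2 β → ℕ} {j : Fin 9 → β}
    (h : Ctx H φ j) (he : H.Adj (j 2) (j 3)) : False := by
  obtain ⟨a1, a2, a3, a4, b1, b2, b3, b4, b5, b6, b7, b8, b9, b10⟩ := h.pattern
  have f1 : φ s(j 2, j 3) ≠ φ s(j 1, j 2) := h.prop' 2 3 1 he (h.base 2 1 rfl) (by decide)
  have f2 : φ s(j 2, j 3) ≠ φ s(j 0, j 3) := h.prop' 3 2 0 he.symm (h.base 3 0 rfl) (by decide)
  have f3 : φ s(j 2, j 3) ≠ φ s(j 3, j 4) := h.prop' 3 2 4 he.symm (h.base 3 4 rfl) (by decide)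
  have f4 : φ s(j 2, j 3) ≠ φ s(j 2, j 5) := h.prop' 2 3 5 he (h.base 2 5 rfl) (by decide)
  have f5 : ¬ (φ s(j 0, j 3) ≠ φ s(j 2, j 3) ∧ φ s(j 0, j 3) ≠ φ s(j 1, j 2) ∧ φ s(j 0, j 3) ≠ φ s(j 4, j 5) ∧ φ s(j 2, j 3) ≠ φ s(j 1, j 2) ∧ φ s(j 2, j 3) ≠ φ s(j 4, j 5) ∧ φ s(j 1, j 2) ≠ φ s(j 4, j 5)) :=
    h.nor' 0 3 2 1 4 5 (by unfold Dist6; decide) (h.base 0 3 rfl) he.symm (h.base 2 1 rfl) (h.base 4 5 rfl)
  have f6 : ¬ (φ s(j 0, j 3) ≠ φ s(j 2, j 3) ∧ φ s(j 0, j 3) ≠ φ s(j 1, j 2) ∧ φ s(j 0, j 3) ≠ φ s(j 4, j 6) ∧ φ s(j 2, j 3) ≠ φ s(j 1, j 2) ∧ φ s(j 2, j 3) ≠ φ s(j 4, j 6) ∧ φ s(j 1, j 2) ≠ φ s(j 4, j 6)) :=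
    h.nor' 0 3 2 1 4 6 (by unfold Dist6; decide) (h.base 0 3 rfl) he.symm (h.base 2 1 rfl) (h.base 4 6 rfl)
  generalize φ s(j 1, j 2) = c12, φ s(j 0, j 3) = c03, φ s(j 3, j 4) = c34, φ s(j 2, j 5) = c25, φ s(j 4, j 5) = c45, φ s(j 0, j 6) = c06, φ s(j 1, j 6) = c16, φ s(j 4, j 6) = c46, φ s(j 5, j 6) = c56, φ s(j 2, j 3) = c23 at *
  grind (splits := 40)

lemma Ctx.case24 {β : Type} {H : SimpleGraph β} {φ : Sym2 β → ℕ} {j : Fin 9 → β}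
    (h : Ctx H φ j) (he : H.Adj (j 2) (j 4)) : False := by
  obtain ⟨a1, a2, a3, a4, b1, b2, b3, b4, b5, b6, b7, b8, b9, b10⟩ := h.pattern
  have f1 : φ s(j 2, j 4) ≠ φ s(j 1, j 2) := h.prop' 2 4 1 he (h.base 2 1 rfl) (by decide)
  have f2 : φ s(j 2, j 4) ≠ φ s(j 3, j 4) := h.prop' 4 2 3 he.symm (h.base 4 3 rfl) (by decide)
  have f3 : φ s(j 2, j 4) ≠ φ s(j 2, j 5) := h.prop' 2 4 5 he (h.base 2 5 rfl) (by decide)
  have f4 : φ s(j 2, j 4) ≠ φ s(j 4, j 5) := h.prop' 4 2 5 he.symm (h.base 4 5 rfl) (by decide)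
  have f5 : φ s(j 2, j 4) ≠ φ s(j 4, j 6) := h.prop' 4 2 6 he.symm (h.base 4 6 rfl) (by decide)
  have f6 : ¬ (φ s(j 1, j 2) ≠ φ s(j 2, j 4) ∧ φ s(j 1, j 2) ≠ φ s(j 4, j 5) ∧ φ s(j 1, j 2) ≠ φ s(j 0, j 3) ∧ φ s(j 2, j 4) ≠ φ s(j 4, j 5) ∧ φ s(j 2, j 4) ≠ φ s(j 0, j 3) ∧ φ s(j 4, j 5) ≠ φ s(j 0, j 3)) :=
    h.nor' 1 2 4 5 0 3 (by unfold Dist6; decide) (h.base 1 2 rfl) he (h.base 4 5 rfl) (h.base 0 3 rfl)
  generalize φ s(j 1, j 2) = c12, φ s(j 0, j 3) = c03, φ s(j 3, j 4) = c34, φ s(j 2, j 5) = c25, φ s(j 4, j 5) = c45, φ s(j 0, j 6) = c06, φ s(j 1, j 6) = c16, φ s(j 4, j 6) = c46, φ s(j 5, j 6) = c56, φ s(j 2, j 4) = c24 at *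
  grind (splits := 40)

lemma Ctx.case26 {β : Type} {H : SimpleGraph β} {φ : Sym2 β → ℕ} {j : Fin 9 → β}
    (h : Ctx H φ j) (he : H.Adj (j 2) (j 6)) : False := by
  obtain ⟨a1, a2, a3, a4, b1, b2, b3, b4, b5, b6, b7, b8, b9, b10⟩ := h.pattern
  have f1 : φ s(j 2, j 6) ≠ φ s(j 1, j 2) := h.prop' 2 6 1 he (h.base 2 1 rfl) (by decide)
  have f2 : φ s(j 2, j 6) ≠ φ s(j 2, j 5) := h.prop' 2 6 5 he (h.base 2 5 rfl) (by decide)
  have f3 : φ s(j 2, j 6) ≠ φ s(j 0, j 6) := h.prop' 6 2 0 he.symm (h.base 6 0 rfl) (by decide)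
  have f4 : φ s(j 2, j 6) ≠ φ s(j 1, j 6) := h.prop' 6 2 1 he.symm (h.base 6 1 rfl) (by decide)
  have f5 : φ s(j 2, j 6) ≠ φ s(j 4, j 6) := h.prop' 6 2 4 he.symm (h.base 6 4 rfl) (by decide)
  have f6 : φ s(j 2, j 6) ≠ φ s(j 5, j 6) := h.prop' 6 2 5 he.symm (h.base 6 5 rfl) (by decide)
  have f7 : ¬ (φ s(j 1, j 2) ≠ φ s(j 2, j 6) ∧ φ s(j 1, j 2) ≠ φ s(j 4, j 6) ∧ φ s(j 1, j 2) ≠ φ s(j 0, j 3) ∧ φ s(j 2, j 6) ≠ φ s(j 4, j 6) ∧ φ s(j 2, j 6) ≠ φ s(j 0, j 3) ∧ φ s(j 4, j 6) ≠ φ s(j 0, j 3)) :=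
    h.nor' 1 2 6 4 0 3 (by unfold Dist6; decide) (h.base 1 2 rfl) he (h.base 6 4 rfl) (h.base 0 3 rfl)
  generalize φ s(j 1, j 2) = c12, φ s(j 0, j 3) = c03, φ s(j 3, j 4) = c34, φ s(j 2, j 5) = c25, φ s(j 4, j 5) = c45, φ s(j 0, j 6) = c06, φ s(j 1, j 6) = c16, φ s(j 4, j 6) = c46, φ s(j 5, j 6) = c56, φ s(j 2, j 6) = c26 at *
  grind (splits := 40)

lemma Ctx.case35 {β : Type} {H : SimpleGraph β} {φ : Sym2 β → ℕ} {j : Fin 9 → β}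
    (h : Ctx H φ j) (he : H.Adj (j 3) (j 5)) : False := by
  obtain ⟨a1, a2, a3, a4, b1, b2, b3, b4, b5, b6, b7, b8, b9, b10⟩ := h.pattern
  have f1 : φ s(j 3, j 5) ≠ φ s(j 0, j 3) := h.prop' 3 5 0 he (h.base 3 0 rfl) (by decide)
  have f2 : φ s(j 3, j 5) ≠ φ s(j 3, j 4) := h.prop' 3 5 4 he (h.base 3 4 rfl) (by decide)
  have f3 : φ s(j 3, j 5) ≠ φ s(j 2, j 5) := h.prop' 5 3 2 he.symm (h.base 5 2 rfl) (by decide)
  have f4 : φ s(j 3, j 5) ≠ φ s(j 4, j 5) := h.prop' 5 3 4 he.symm (h.base 5 4 rfl) (by decide)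
  have f5 : φ s(j 3, j 5) ≠ φ s(j 5, j 6) := h.prop' 5 3 6 he.symm (h.base 5 6 rfl) (by decide)
  have f6 : ¬ (φ s(j 0, j 3) ≠ φ s(j 3, j 5) ∧ φ s(j 0, j 3) ≠ φ s(j 4, j 5) ∧ φ s(j 0, j 3) ≠ φ s(j 1, j 2) ∧ φ s(j 3, j 5) ≠ φ s(j 4, j 5) ∧ φ s(j 3, j 5) ≠ φ s(j 1, j 2) ∧ φ s(j 4, j 5) ≠ φ s(j 1, j 2)) :=
    h.nor' 0 3 5 4 1 2 (by unfold Dist6; decide) (h.base 0 3 rfl) he (h.base 5 4 rfl) (h.base 1 2 rfl)
  generalize φ s(j 1, j 2) = c12, φ s(j 0, j 3) = c03, φ s(j 3, j 4) = c34, φ s(j 2, j 5) = c25, φ s(j 4, j 5) = c45, φ s(j 0, j 6) = c06, φ s(j 1, j 6) = c16, φ s(j 4, j 6) = c46, φ s(j 5, j 6) = c56, φ s(j 3, j 5) = c35 at *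
  grind (splits := 40)

lemma Ctx.case36 {β : Type} {H : SimpleGraph β} {φ : Sym2 β → ℕ} {j : Fin 9 → β}
    (h : Ctx H φ j) (he : H.Adj (j 3) (j 6)) : False := by
  obtain ⟨a1, a2, a3, a4, b1, b2, b3, b4, b5, b6, b7, b8, b9, b10⟩ := h.pattern
  have f1 : φ s(j 3, j 6) ≠ φ s(j 0, j 3) := h.prop' 3 6 0 he (h.base 3 0 rfl) (by decide)
  have f2 : φ s(j 3, j 6) ≠ φ s(j 3, j 4) := h.prop' 3 6 4 he (h.base 3 4 rfl) (by decide)
  have f3 : φ s(j 3, j 6) ≠ φ s(j 0, j 6) := h.prop' 6 3 0 he.symm (h.base 6 0 rfl) (by decide)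
  have f4 : φ s(j 3, j 6) ≠ φ s(j 1, j 6) := h.prop' 6 3 1 he.symm (h.base 6 1 rfl) (by decide)
  have f5 : φ s(j 3, j 6) ≠ φ s(j 4, j 6) := h.prop' 6 3 4 he.symm (h.base 6 4 rfl) (by decide)
  have f6 : φ s(j 3, j 6) ≠ φ s(j 5, j 6) := h.prop' 6 3 5 he.symm (h.base 6 5 rfl) (by decide)
  have f7 : ¬ (φ s(j 0, j 3) ≠ φ s(j 3, j 6) ∧ φ s(j 0, j 3) ≠ φ s(j 4, j 6) ∧ φ s(j 0, j 3) ≠ φ s(j 1, j 2) ∧ φ s(j 3, j 6) ≠ φ s(j 4, j 6) ∧ φ s(j 3, j 6) ≠ φ s(j 1, j 2) ∧ φ s(j 4, j 6) ≠ φ s(j 1, j 2)) :=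
    h.nor' 0 3 6 4 1 2 (by unfold Dist6; decide) (h.base 0 3 rfl) he (h.base 6 4 rfl) (h.base 1 2 rfl)
  generalize φ s(j 1, j 2) = c12, φ s(j 0, j 3) = c03, φ s(j 3, j 4) = c34, φ s(j 2, j 5) = c25, φ s(j 4, j 5) = c45, φ s(j 0, j 6) = c06, φ s(j 1, j 6) = c16, φ s(j 4, j 6) = c46, φ s(j 5, j 6) = c56, φ s(j 3, j 6) = c36 at *
  grind (splits := 40)

lemma Ctx.case07 {β : Type} {H : SimpleGraph β} {φ : Sym2 β → ℕ} {j : Fin 9 → β}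
    (h : Ctx H φ j) (he : H.Adj (j 0) (j 7)) : False := by
  obtain ⟨a1, a2, a3, a4, b1, b2, b3, b4, b5, b6, b7, b8, b9, b10⟩ := h.pattern
  have f1 : φ s(j 0, j 7) ≠ φ s(j 0, j 3) := h.prop' 0 7 3 he (h.base 0 3 rfl) (by decide)
  have f2 : φ s(j 0, j 7) ≠ φ s(j 0, j 6) := h.prop' 0 7 6 he (h.base 0 6 rfl) (by decide)
  have f3 : ¬ (φ s(j 1, j 2) ≠ φ s(j 2, j 5) ∧ φ s(j 1, j 2) ≠ φ s(j 4, j 5) ∧ φ s(j 1, j 2) ≠ φ s(j 0, j 7) ∧ φ s(j 2, j 5) ≠ φ s(j 4, j 5) ∧ φ s(j 2, j 5) ≠ φ s(j 0, j 7) ∧ φ s(j 4, j 5) ≠ φ s(j 0, j 7)) :=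
    h.nor' 1 2 5 4 0 7 (by unfold Dist6; decide) (h.base 1 2 rfl) (h.base 2 5 rfl) (h.base 5 4 rfl) he
  have f4 : ¬ (φ s(j 1, j 2) ≠ φ s(j 2, j 5) ∧ φ s(j 1, j 2) ≠ φ s(j 5, j 6) ∧ φ s(j 1, j 2) ≠ φ s(j 0, j 7) ∧ φ s(j 2, j 5) ≠ φ s(j 5, j 6) ∧ φ s(j 2, j 5) ≠ φ s(j 0, j 7) ∧ φ s(j 5, j 6) ≠ φ s(j 0, j 7)) :=
    h.nor' 1 2 5 6 0 7 (by unfold Dist6; decide) (h.base 1 2 rfl) (h.base 2 5 rfl) (h.base 5 6 rfl) he
  generalize φ s(j 1, j 2) = c12, φ s(j 0, j 3) = c03, φ s(j 3, j 4) = c34, φ s(j 2, j 5) = c25, φ s(j 4, j 5) = c45, φ s(j 0, j 6) = c06, φ s(j 1, j 6) = c16, φ s(j 4, j 6) = c46, φ s(j 5, j 6) = c56, φ s(j 0, j 7) = c07 at *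
  grind (splits := 40)

lemma Ctx.case17 {β : Type} {H : SimpleGraph β} {φ : Sym2 β → ℕ} {j : Fin 9 → β}
    (h : Ctx H φ j) (he : H.Adj (j 1) (j 7)) : False := by
  obtain ⟨a1, a2, a3, a4, b1, b2, b3, b4, b5, b6, b7, b8, b9, b10⟩ := h.pattern
  have f1 : φ s(j 1, j 7) ≠ φ s(j 1, j 2) := h.prop' 1 7 2 he (h.base 1 2 rfl) (by decide)
  have f2 : φ s(j 1, j 7) ≠ φ s(j 1, j 6) := h.prop' 1 7 6 he (h.base 1 6 rfl) (by decide)
  have f3 : ¬ (φ s(j 0, j 3) ≠ φ s(j 3, j 4) ∧ φ s(j 0, j 3) ≠ φ s(j 4, j 5) ∧ φ s(j 0, j 3) ≠ φ s(j 1, j 7) ∧ φ s(j 3, j 4) ≠ φ s(j 4, j 5) ∧ φ s(j 3, j 4) ≠ φ s(j 1, j 7) ∧ φ s(j 4, j 5) ≠ φ s(j 1, j 7)) :=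
    h.nor' 0 3 4 5 1 7 (by unfold Dist6; decide) (h.base 0 3 rfl) (h.base 3 4 rfl) (h.base 4 5 rfl) he
  have f4 : ¬ (φ s(j 0, j 3) ≠ φ s(j 3, j 4) ∧ φ s(j 0, j 3) ≠ φ s(j 4, j 6) ∧ φ s(j 0, j 3) ≠ φ s(j 1, j 7) ∧ φ s(j 3, j 4) ≠ φ s(j 4, j 6) ∧ φ s(j 3, j 4) ≠ φ s(j 1, j 7) ∧ φ s(j 4, j 6) ≠ φ s(j 1, j 7)) :=
    h.nor' 0 3 4 6 1 7 (by unfold Dist6; decide) (h.base 0 3 rfl) (h.base 3 4 rfl) (h.base 4 6 rfl) he
  generalize φ s(j 1, j 2) = c12, φ s(j 0, j 3) = c03, φ s(j 3, j 4) = c34, φ s(j 2, j 5) = c25, φ s(j 4, j 5) = c45, φ s(j 0, j 6) = c06, φ s(j 1, j 6) = c16, φ s(j 4, j 6) = c46, φ s(j 5, j 6) = c56, φ s(j 1, j 7) = c17 at *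
  grind (splits := 40)

lemma Ctx.case27 {β : Type} {H : SimpleGraph β} {φ : Sym2 β → ℕ} {j : Fin 9 → β}
    (h : Ctx H φ j) (he : H.Adj (j 2) (j 7)) : False := by
  obtain ⟨a1, a2, a3, a4, b1, b2, b3, b4, b5, b6, b7, b8, b9, b10⟩ := h.pattern
  have f1 : φ s(j 2, j 7) ≠ φ s(j 1, j 2) := h.prop' 2 7 1 he (h.base 2 1 rfl) (by decide)
  have f2 : φ s(j 2, j 7) ≠ φ s(j 2, j 5) := h.prop' 2 7 5 he (h.base 2 5 rfl) (by decide)
  have f3 : ¬ (φ s(j 0, j 3) ≠ φ s(j 3, j 4) ∧ φ s(j 0, j 3) ≠ φ s(j 4, j 5) ∧ φ s(j 0, j 3) ≠ φ s(j 2, j 7) ∧ φ s(j 3, j 4) ≠ φ s(j 4, j 5) ∧ φ s(j 3, j 4) ≠ φ s(j 2, j 7) ∧ φ s(j 4, j 5) ≠ φ s(j 2, j 7)) :=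
    h.nor' 0 3 4 5 2 7 (by unfold Dist6; decide) (h.base 0 3 rfl) (h.base 3 4 rfl) (h.base 4 5 rfl) he
  have f4 : ¬ (φ s(j 0, j 3) ≠ φ s(j 3, j 4) ∧ φ s(j 0, j 3) ≠ φ s(j 4, j 6) ∧ φ s(j 0, j 3) ≠ φ s(j 2, j 7) ∧ φ s(j 3, j 4) ≠ φ s(j 4, j 6) ∧ φ s(j 3, j 4) ≠ φ s(j 2, j 7) ∧ φ s(j 4, j 6) ≠ φ s(j 2, j 7)) :=
    h.nor' 0 3 4 6 2 7 (by unfold Dist6; decide) (h.base 0 3 rfl) (h.base 3 4 rfl) (h.base 4 6 rfl) he
  generalize φ s(j 1, j 2) = c12, φ s(j 0, j 3) = c03, φ s(j 3, j 4) = c34, φ s(j 2, j 5) = c25, φ s(j 4, j 5) = c45, φ s(j 0, j 6) = c06, φ s(j 1, j 6) = c16, φ s(j 4, j 6) = c46, φ s(j 5, j 6) = c56, φ s(j 2, j 7) = c27 at *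
  grind (splits := 40)

lemma Ctx.case37 {β : Type} {H : SimpleGraph β} {φ : Sym2 β → ℕ} {j : Fin 9 → β}
    (h : Ctx H φ j) (he : H.Adj (j 3) (j 7)) : False := by
  obtain ⟨a1, a2, a3, a4, b1, b2, b3, b4, b5, b6, b7, b8, b9, b10⟩ := h.pattern
  have f1 : φ s(j 3, j 7) ≠ φ s(j 0, j 3) := h.prop' 3 7 0 he (h.base 3 0 rfl) (by decide)
  have f2 : φ s(j 3, j 7) ≠ φ s(j 3, j 4) := h.prop' 3 7 4 he (h.base 3 4 rfl) (by decide)
  have f3 : ¬ (φ s(j 0, j 6) ≠ φ s(j 4, j 6) ∧ φ s(j 0, j 6) ≠ φ s(j 4, j 5) ∧ φ s(j 0, j 6) ≠ φ s(j 3, j 7) ∧ φ s(j 4, j 6) ≠ φ s(j 4, j 5) ∧ φ s(j 4, j 6) ≠ φ s(j 3, j 7) ∧ φ s(j 4, j 5) ≠ φ s(j 3, j 7)) :=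
    h.nor' 0 6 4 5 3 7 (by unfold Dist6; decide) (h.base 0 6 rfl) (h.base 6 4 rfl) (h.base 4 5 rfl) he
  have f4 : ¬ (φ s(j 0, j 6) ≠ φ s(j 5, j 6) ∧ φ s(j 0, j 6) ≠ φ s(j 2, j 5) ∧ φ s(j 0, j 6) ≠ φ s(j 3, j 7) ∧ φ s(j 5, j 6) ≠ φ s(j 2, j 5) ∧ φ s(j 5, j 6) ≠ φ s(j 3, j 7) ∧ φ s(j 2, j 5) ≠ φ s(j 3, j 7)) :=
    h.nor' 0 6 5 2 3 7 (by unfold Dist6; decide) (h.base 0 6 rfl) (h.base 6 5 rfl) (h.base 5 2 rfl) he
  generalize φ s(j 1, j 2) = c12, φ s(j 0, j 3) = c03, φ s(j 3, j 4) = c34, φ s(j 2, j 5) = c25, φ s(j 4, j 5) = c45, φ s(j 0, j 6) = c06, φ s(j 1, j 6) = c16, φ s(j 4, j 6) = c46, φ s(j 5, j 6) = c56, φ s(j 3, j 7) = c37 at *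
  grind (splits := 40)

lemma Ctx.case47 {β : Type} {H : SimpleGraph β} {φ : Sym2 β → ℕ} {j : Fin 9 → β}
    (h : Ctx H φ j) (he : H.Adj (j 4) (j 7)) : False := by
  obtain ⟨a1, a2, a3, a4, b1, b2, b3, b4, b5, b6, b7, b8, b9, b10⟩ := h.pattern
  have f1 : φ s(j 4, j 7) ≠ φ s(j 3, j 4) := h.prop' 4 7 3 he (h.base 4 3 rfl) (by decide)
  have f2 : φ s(j 4, j 7) ≠ φ s(j 4, j 5) := h.prop' 4 7 5 he (h.base 4 5 rfl) (by decide)
  have f3 : φ s(j 4, j 7) ≠ φ s(j 4, j 6) := h.prop' 4 7 6 he (h.base 4 6 rfl) (by decide)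
  have f4 : ¬ (φ s(j 0, j 6) ≠ φ s(j 4, j 6) ∧ φ s(j 0, j 6) ≠ φ s(j 4, j 7) ∧ φ s(j 0, j 6) ≠ φ s(j 2, j 5) ∧ φ s(j 4, j 6) ≠ φ s(j 4, j 7) ∧ φ s(j 4, j 6) ≠ φ s(j 2, j 5) ∧ φ s(j 4, j 7) ≠ φ s(j 2, j 5)) :=
    h.nor' 0 6 4 7 2 5 (by unfold Dist6; decide) (h.base 0 6 rfl) (h.base 6 4 rfl) he (h.base 2 5 rfl)
  have f5 : ¬ (φ s(j 5, j 6) ≠ φ s(j 4, j 6) ∧ φ s(j 5, j 6) ≠ φ s(j 4, j 7) ∧ φ s(j 5, j 6) ≠ φ s(j 1, j 2) ∧ φ s(j 4, j 6) ≠ φ s(j 4, j 7) ∧ φ s(j 4, j 6) ≠ φ s(j 1, j 2) ∧ φ s(j 4, j 7) ≠ φ s(j 1, j 2)) :=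
    h.nor' 5 6 4 7 1 2 (by unfold Dist6; decide) (h.base 5 6 rfl) (h.base 6 4 rfl) he (h.base 1 2 rfl)
  generalize φ s(j 1, j 2) = c12, φ s(j 0, j 3) = c03, φ s(j 3, j 4) = c34, φ s(j 2, j 5) = c25, φ s(j 4, j 5) = c45, φ s(j 0, j 6) = c06, φ s(j 1, j 6) = c16, φ s(j 4, j 6) = c46, φ s(j 5, j 6) = c56, φ s(j 4, j 7) = c47 at *
  grind (splits := 40)

lemma Ctx.case57 {β : Type} {H : SimpleGraph β} {φ : Sym2 β → ℕ} {j : Fin 9 → β}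
    (h : Ctx H φ j) (he : H.Adj (j 5) (j 7)) : False := by
  obtain ⟨a1, a2, a3, a4, b1, b2, b3, b4, b5, b6, b7, b8, b9, b10⟩ := h.pattern
  have f1 : φ s(j 5, j 7) ≠ φ s(j 2, j 5) := h.prop' 5 7 2 he (h.base 5 2 rfl) (by decide)
  have f2 : φ s(j 5, j 7) ≠ φ s(j 4, j 5) := h.prop' 5 7 4 he (h.base 5 4 rfl) (by decide)
  have f3 : φ s(j 5, j 7) ≠ φ s(j 5, j 6) := h.prop' 5 7 6 he (h.base 5 6 rfl) (by decide)
  have f4 : ¬ (φ s(j 1, j 6) ≠ φ s(j 5, j 6) ∧ φ s(j 1, j 6) ≠ φ s(j 5, j 7) ∧ φ s(j 1, j 6) ≠ φ s(j 3, j 4) ∧ φ s(j 5, j 6) ≠ φ s(j 5, j 7) ∧ φ s(j 5, j 6) ≠ φ s(j 3, j 4) ∧ φ s(j 5, j 7) ≠ φ s(j 3, j 4)) :=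
    h.nor' 1 6 5 7 3 4 (by unfold Dist6; decide) (h.base 1 6 rfl) (h.base 6 5 rfl) he (h.base 3 4 rfl)
  have f5 : ¬ (φ s(j 4, j 6) ≠ φ s(j 5, j 6) ∧ φ s(j 4, j 6) ≠ φ s(j 5, j 7) ∧ φ s(j 4, j 6) ≠ φ s(j 0, j 3) ∧ φ s(j 5, j 6) ≠ φ s(j 5, j 7) ∧ φ s(j 5, j 6) ≠ φ s(j 0, j 3) ∧ φ s(j 5, j 7) ≠ φ s(j 0, j 3)) :=
    h.nor' 4 6 5 7 0 3 (by unfold Dist6; decide) (h.base 4 6 rfl) (h.base 6 5 rfl) he (h.base 0 3 rfl)
  generalize φ s(j 1, j 2) = c12, φ s(j 0, j 3) = c03, φ s(j 3, j 4) = c34, φ s(j 2, j 5) = c25, φ s(j 4, j 5) = c45, φ s(j 0, j 6) = c06, φ s(j 1, j 6) = c16, φ s(j 4, j 6) = c46, φ s(j 5, j 6) = c56, φ s(j 5, j 7) = c57 at *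
  grind (splits := 40)

lemma Ctx.case67 {β : Type} {H : SimpleGraph β} {φ : Sym2 β → ℕ} {j : Fin 9 → β}
    (h : Ctx H φ j) (he : H.Adj (j 6) (j 7)) : False := by
  obtain ⟨a1, a2, a3, a4, b1, b2, b3, b4, b5, b6, b7, b8, b9, b10⟩ := h.pattern
  have f1 : φ s(j 6, j 7) ≠ φ s(j 0, j 6) := h.prop' 6 7 0 he (h.base 6 0 rfl) (by decide)
  have f2 : φ s(j 6, j 7) ≠ φ s(j 1, j 6) := h.prop' 6 7 1 he (h.base 6 1 rfl) (by decide)
  have f3 : φ s(j 6, j 7) ≠ φ s(j 4, j 6) := h.prop' 6 7 4 he (h.base 6 4 rfl) (by decide)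
  have f4 : φ s(j 6, j 7) ≠ φ s(j 5, j 6) := h.prop' 6 7 5 he (h.base 6 5 rfl) (by decide)
  have f5 : ¬ (φ s(j 2, j 5) ≠ φ s(j 5, j 6) ∧ φ s(j 2, j 5) ≠ φ s(j 6, j 7) ∧ φ s(j 2, j 5) ≠ φ s(j 3, j 4) ∧ φ s(j 5, j 6) ≠ φ s(j 6, j 7) ∧ φ s(j 5, j 6) ≠ φ s(j 3, j 4) ∧ φ s(j 6, j 7) ≠ φ s(j 3, j 4)) :=
    h.nor' 2 5 6 7 3 4 (by unfold Dist6; decide) (h.base 2 5 rfl) (h.base 5 6 rfl) he (h.base 3 4 rfl)
  generalize φ s(j 1, j 2) = c12, φ s(j 0, j 3) = c03, φ s(j 3, j 4) = c34, φ s(j 2, j 5) = c25, φ s(j 4, j 5) = c45, φ s(j 0, j 6) = c06, φ s(j 1, j 6) = c16, φ s(j 4, j 6) = c46, φ s(j 5, j 6) = c56, φ s(j 6, j 7) = c67 at *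
  grind (splits := 40)

lemma Ctx.case78 {β : Type} {H : SimpleGraph β} {φ : Sym2 β → ℕ} {j : Fin 9 → β}
    (h : Ctx H φ j) (he : H.Adj (j 7) (j 8)) : False := by
  obtain ⟨a1, a2, a3, a4, b1, b2, b3, b4, b5, b6, b7, b8, b9, b10⟩ := h.pattern
  have f1 : ¬ (φ s(j 0, j 3) ≠ φ s(j 3, j 4) ∧ φ s(j 0, j 3) ≠ φ s(j 4, j 5) ∧ φ s(j 0, j 3) ≠ φ s(j 7, j 8) ∧ φ s(j 3, j 4) ≠ φ s(j 4, j 5) ∧ φ s(j 3, j 4) ≠ φ s(j 7, j 8) ∧ φ s(j 4, j 5) ≠ φ s(j 7, j 8)) :=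
    h.nor' 0 3 4 5 7 8 (by unfold Dist6; decide) (h.base 0 3 rfl) (h.base 3 4 rfl) (h.base 4 5 rfl) he
  have f2 : ¬ (φ s(j 0, j 6) ≠ φ s(j 4, j 6) ∧ φ s(j 0, j 6) ≠ φ s(j 4, j 5) ∧ φ s(j 0, j 6) ≠ φ s(j 7, j 8) ∧ φ s(j 4, j 6) ≠ φ s(j 4, j 5) ∧ φ s(j 4, j 6) ≠ φ s(j 7, j 8) ∧ φ s(j 4, j 5) ≠ φ s(j 7, j 8)) :=
    h.nor' 0 6 4 5 7 8 (by unfold Dist6; decide) (h.base 0 6 rfl) (h.base 6 4 rfl) (h.base 4 5 rfl) he
  have f3 : ¬ (φ s(j 2, j 5) ≠ φ s(j 5, j 6) ∧ φ s(j 2, j 5) ≠ φ s(j 4, j 6) ∧ φ s(j 2, j 5) ≠ φ s(j 7, j 8) ∧ φ s(j 5, j 6) ≠ φ s(j 4, j 6) ∧ φ s(j 5, j 6) ≠ φ s(j 7, j 8) ∧ φ s(j 4, j 6) ≠ φ s(j 7, j 8)) :=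
    h.nor' 2 5 6 4 7 8 (by unfold Dist6; decide) (h.base 2 5 rfl) (h.base 5 6 rfl) (h.base 6 4 rfl) he
  generalize φ s(j 1, j 2) = c12, φ s(j 0, j 3) = c03, φ s(j 3, j 4) = c34, φ s(j 2, j 5) = c25, φ s(j 4, j 5) = c45, φ s(j 0, j 6) = c06, φ s(j 1, j 6) = c16, φ s(j 4, j 6) = c46, φ s(j 5, j 6) = c56, φ s(j 7, j 8) = c78 at *
  grind (splits := 40)

lemma ad_comm (x y : ℕ) : ad x y = ad y x := by
  unfold ad
  congr 1
  funext e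
  rw [Bool.or_comm]

lemma ad_self (x : ℕ) : ad x x = false := by
  unfold ad
  simp
  omega

lemma ad_lt {x y : ℕ} (h : ad x y = true) : x < 7 ∧ y < 7 := by
  unfold ad at h
  simp at h
  omega

/-- The small graph together with isolated vertices. -/
def small (n : ℕ) : SimpleGraph (Fin n) where
  Adj x y := ad x y = true
  symm := ⟨fun x y h => by rw [ad_comm]; exact h⟩
  loopless := ⟨fun x h => by rw [ad_self] at h; exact Bool.noConfusion h⟩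

instance (n : ℕ) : DecidableRel (small n).Adj :=
  fun x y => inferInstanceAs (Decidable (ad x y = true))

/-- The injection of `Fin 9` sending `7` and `8` to given vertices. -/
def jj {n : ℕ} (hn : 9 ≤ n) (s t : Fin n) (k : Fin 9) : Fin n :=
  if k.val < 7 then ⟨k.val, by omega⟩ else if k.val = 7 then s else t

lemma jj_lt {n : ℕ} (hn : 9 ≤ n) (s t : Fin n) (k : Fin 9) (hk : k.val < 7) :
    (jj hn s t k).val = k.val := by
  unfold jj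
  rw [if_pos hk]

lemma jj_inj {n : ℕ} (hn : 9 ≤ n) (s t : Fin n) (hs : 7 ≤ s.val) (ht : 7 ≤ t.val) (hst : s ≠ t) :
    Function.Injective (jj hn s t) := by
  intro a b hab
  unfold jj at hab
  have hst' : s.val ≠ t.val := fun h => hst (Fin.ext h)
  apply Fin.ext
  split_ifs at hab with h1 h2 h3 h4 h5 h6 h7 <;>
    first
      | (have := congrArg Fin.val hab; simp at this; omega)
      | omega

lemma mkCtx {n : ℕ} (hn : 9 ≤ n) (s t : Fin n) (hs : 7 ≤ s.val) (ht : 7 ≤ t.val) (hst : s ≠ t)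
    (u v : Fin n) (φ : Sym2 (Fin n) → ℕ) (hp : IsProper (small n ⊔ edge u v) φ)
    (hno : ¬ ∃ f : Copy PK (small n ⊔ edge u v), IsRainbow φ f) :
    Ctx (small n ⊔ edge u v) φ (jj hn s t) where
  inj := jj_inj hn s t hs ht hst
  base := by
    intro a b hab
    have h7 := ad_lt hab
    left
    change ad (jj hn s t a).val (jj hn s t b).val = true
    rw [jj_lt hn s t a h7.1, jj_lt hn s t b h7.2]
    exact hab
  prop := by
    intro a b c h1 h2 hbc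
    refine hp _ h1 _ h2 ?_ ⟨jj hn s t a, by simp, by simp⟩
    intro h
    rw [Sym2.eq_iff] at h
    rcases h with h | h
    · exact hbc (jj_inj hn s t hs ht hst h.2)
    · exact h2.ne h.1
  nor := by
    intro a b c d p q hd h1 h2 h3 h4 hr
    apply hno
    rw [exists_rainbow_iff]
    refine ⟨_, _, _, _, _, _, ⟨?_, h1, h2, h3, h4⟩, hr⟩
    obtain ⟨e1, e2, e3, e4, e5, e6, e7, e8, e9, e10, e11, e12, e13, e14, e15⟩ := hd
    have hi : ∀ x y : Fin 9, x ≠ y → jj hn s t x ≠ jj hn s t y :=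
      fun x y h h' => h (jj_inj hn s t hs ht hst h')
    exact ⟨hi _ _ e1, hi _ _ e2, hi _ _ e3, hi _ _ e4, hi _ _ e5, hi _ _ e6, hi _ _ e7, hi _ _ e8,
      hi _ _ e9, hi _ _ e10, hi _ _ e11, hi _ _ e12, hi _ _ e13, hi _ _ e14, hi _ _ e15⟩

lemma Ctx.all {β : Type} {H : SimpleGraph β} {φ : Sym2 β → ℕ} {j : Fin 9 → β}
    (h : Ctx H φ j) (x y : Fin 9) (hxy : x ≠ y) (hx : x.val < 8) (hy : y.val < 8)
    (hn : ¬ ad x y = true) (he : H.Adj (j x) (j y)) : False := by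
  fin_cases x <;> fin_cases y <;>
    first
      | exact absurd rfl hxy
      | exact absurd hx (by decide)
      | exact absurd hy (by decide)
      | exact absurd (by rfl) hn
      | exact h.case01 he
      | exact h.case02 he
      | exact h.case04 he
      | exact h.case05 he
      | exact h.case13 he
      | exact h.case14 he
      | exact h.case15 he
      | exact h.case23 he
      | exact h.case24 he
      | exact h.case26 he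
      | exact h.case35 he
      | exact h.case36 he
      | exact h.case07 he
      | exact h.case17 he
      | exact h.case27 he
      | exact h.case37 he
      | exact h.case47 he
      | exact h.case57 he
      | exact h.case67 he
      | exact h.case01 he.symm
      | exact h.case02 he.symm
      | exact h.case04 he.symm
      | exact h.case05 he.symm
      | exact h.case13 he.symm
      | exact h.case14 he.symm
      | exact h.case15 he.symm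
      | exact h.case23 he.symm
      | exact h.case24 he.symm
      | exact h.case26 he.symm
      | exact h.case35 he.symm
      | exact h.case36 he.symm
      | exact h.case07 he.symm
      | exact h.case17 he.symm
      | exact h.case27 he.symm
      | exact h.case37 he.symm
      | exact h.case47 he.symm
      | exact h.case57 he.symm
      | exact h.case67 he.symm

lemma small_add {n : ℕ} (hn : 9 ≤ n) (u v : Fin n) (huv : u ≠ v) (hna : ¬ (small n).Adj u v)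
    (φ : Sym2 (Fin n) → ℕ) (hp : IsProper (small n ⊔ edge u v) φ) :
    ∃ f : Copy PK (small n ⊔ edge u v), IsRainbow φ f := by
  by_contra hno
  have hadj : (small n ⊔ edge u v).Adj u v := by
    right
    rw [edge_adj]
    exact ⟨Or.inl ⟨rfl, rfl⟩, huv⟩
  -- two spare vertices
  have spare : ∀ s : Fin n, 7 ≤ s.val → ∃ t : Fin n, 7 ≤ t.val ∧ s ≠ t := by
    intro s hs
    by_cases h : s.val = 7
    · exact ⟨⟨8, by omega⟩, by simp, fun h' => by rw [h'] at h; simp at h⟩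
    · exact ⟨⟨7, by omega⟩, by simp, fun h' => by rw [h'] at h; simp at h⟩
  have j7 : ∀ s t : Fin n, jj hn s t 7 = s := fun s t => by unfold jj; simp
  have j8 : ∀ s t : Fin n, jj hn s t 8 = t := fun s t => by unfold jj; simp
  have jl : ∀ s t u : Fin n, ∀ hu : u.val < 7, jj hn s t ⟨u.val, by omega⟩ = u := by
    intro s t u hu
    apply Fin.ext
    rw [jj_lt hn s t _ hu]
  by_cases hu : u.val < 7
  · by_cases hv : v.val < 7
    · have C := mkCtx hn ⟨7, by omega⟩ ⟨8, by omega⟩ (by simp) (by simp) (by simp) u v φ hp hno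
      refine C.all ⟨u.val, by omega⟩ ⟨v.val, by omega⟩ ?_ (by simp; omega) (by simp; omega) hna ?_
      · intro h; exact huv (Fin.ext (by simpa using h))
      · rw [jl _ _ u hu, jl _ _ v hv]; exact hadj
    · obtain ⟨t, ht, hvt⟩ := spare v (by omega)
      have C := mkCtx hn v t (by omega) ht hvt u v φ hp hno
      refine C.all ⟨u.val, by omega⟩ 7 ?_ (by simp; omega) (by decide) ?_ ?_
      · intro h; have := congrArg Fin.val h; simp at this; omega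
      · intro h; have := ad_lt h; simp at this
      · rw [jl _ _ u hu, j7]; exact hadj
  · by_cases hv : v.val < 7
    · obtain ⟨t, ht, hut⟩ := spare u (by omega)
      have C := mkCtx hn u t (by omega) ht hut u v φ hp hno
      refine C.all ⟨v.val, by omega⟩ 7 ?_ (by simp; omega) (by decide) ?_ ?_
      · intro h; have := congrArg Fin.val h; simp at this; omega
      · intro h; have := ad_lt h; simp at this
      · rw [jl _ _ v hv, j7]; exact hadj.symm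
    · have C := mkCtx hn u v (by omega) (by omega) huv u v φ hp hno
      refine C.case78 ?_
      rw [j7, j8]; exact hadj

/-- A colouring of the small graph. -/
def cl (x y : ℕ) : ℕ :=
  if [(1, 2), (3, 4), (0, 6)].any fun e => (e.1 == x && e.2 == y) || (e.1 == y && e.2 == x) then 0
  else if [(0, 3), (2, 5), (1, 6)].any fun e =>
    (e.1 == x && e.2 == y) || (e.1 == y && e.2 == x) then 1
  else if [(4, 5)].any fun e => (e.1 == x && e.2 == y) || (e.1 == y && e.2 == x) then 2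
  else if [(4, 6)].any fun e => (e.1 == x && e.2 == y) || (e.1 == y && e.2 == x) then 3
  else 4

lemma cl_comm (x y : ℕ) : cl x y = cl y x := by
  unfold cl
  have : (fun e : ℕ × ℕ => (e.1 == x && e.2 == y) || (e.1 == y && e.2 == x)) =
    fun e : ℕ × ℕ => (e.1 == y && e.2 == x) || (e.1 == x && e.2 == y) := by
    funext e
    rw [Bool.or_comm]
  rw [this]

/-- The colouring on unordered pairs. -/
def φ0 (n : ℕ) : Sym2 (Fin n) → ℕ :=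
  Sym2.lift ⟨fun x y => cl x.val y.val, fun x y => cl_comm _ _⟩

lemma prop7 : ∀ x y z : Fin 7, ad x y = true → ad x z = true → y ≠ z → cl x y ≠ cl x z := by
  decide +kernel

lemma rb7 : ∀ a b : Fin 7, ad a b = true → ∀ c : Fin 7, ad b c = true → a ≠ c →
    cl a b ≠ cl b c → ∀ d : Fin 7, ad c d = true → b ≠ d → a ≠ d → cl a b ≠ cl c d →
    cl b c ≠ cl c d → ∀ p : Fin 7, a ≠ p → b ≠ p → c ≠ p → d ≠ p → ∀ q : Fin 7, ad p q = true →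
    a ≠ q → b ≠ q → c ≠ q → d ≠ q →
    ¬ (cl a b ≠ cl p q ∧ cl b c ≠ cl p q ∧ cl c d ≠ cl p q) := by
  decide +kernel

lemma small_proper (n : ℕ) : IsProper (small n) (φ0 n) := by
  intro e he e' he' hne ⟨v, hv, hv'⟩
  obtain ⟨y, rfl⟩ := hv
  obtain ⟨z, rfl⟩ := hv'
  have h1 : ad v y = true := he
  have h2 : ad v z = true := he'
  have l1 := ad_lt h1
  have l2 := ad_lt h2
  have := prop7 ⟨v, l1.1⟩ ⟨y, l1.2⟩ ⟨z, l2.2⟩ h1 h2 (by
    intro h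
    apply hne
    have : y = z := Fin.ext (by simpa using h)
    rw [this])
  exact this

lemma small_norb (n : ℕ) : ¬ ∃ f : Copy PK (small n), IsRainbow (φ0 n) f := by
  rw [exists_rainbow_iff]
  rintro ⟨a, b, c, d, p, q, ⟨⟨e1, e2, e3, e4, e5, e6, e7, e8, e9, e10, e11, e12, e13, e14, e15⟩,
    h1, h2, h3, h4⟩, r1, r2, r3, r4, r5, r6⟩
  have h1' : ad a b = true := h1
  have h2' : ad b c = true := h2
  have h3' : ad c d = true := h3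
  have h4' : ad p q = true := h4
  have l1 := ad_lt h1'
  have l3 := ad_lt h3'
  have l4 := ad_lt h4'
  have ne : ∀ (x y : Fin n) (hx : x.val < 7) (hy : y.val < 7), x ≠ y →
      (⟨x.val, hx⟩ : Fin 7) ≠ ⟨y.val, hy⟩ := by
    intro x y hx hy hxy h
    exact hxy (Fin.ext (by simpa using h))
  exact rb7 ⟨a, l1.1⟩ ⟨b, l1.2⟩ h1' ⟨c, l3.1⟩ h2' (ne _ _ _ _ e2) r1 ⟨d, l3.2⟩ h3' (ne _ _ _ _ e7)
    (ne _ _ _ _ e3) r2 r4 ⟨p, l4.1⟩ (ne _ _ _ _ e4) (ne _ _ _ _ e8) (ne _ _ _ _ e11)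
    (ne _ _ _ _ e13) ⟨q, l4.2⟩ h4' (ne _ _ _ _ e5) (ne _ _ _ _ e9) (ne _ _ _ _ e12)
    (ne _ _ _ _ e14) ⟨r3, r5, r6⟩

lemma small_rsat {n : ℕ} (hn : 9 ≤ n) : IsRainbowSat PK (small n) :=
  ⟨⟨φ0 n, small_proper n, small_norb n⟩, fun u v huv hna φ hp => small_add hn u v huv hna φ hp⟩

lemma ncard_map {k n : ℕ} (A : SimpleGraph (Fin k)) (f : Fin k ↪ Fin n) :
    (A.map f).edgeSet.ncard = A.edgeSet.ncard := by
  rw [edgeSet_map]
  exact Set.ncard_image_of_injective _ (Function.Embedding.injective _)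

lemma small_ncard {n : ℕ} (hn : 7 ≤ n) : (small n).edgeSet.ncard = 9 := by
  have : small n = (small 7).map (Fin.castLEEmb hn) := by
    ext x y
    rw [map_adj]
    constructor
    · intro h
      have h' : ad x y = true := h
      have l := ad_lt h'
      exact ⟨⟨x, l.1⟩, ⟨y, l.2⟩, h', rfl, rfl⟩
    · rintro ⟨a, b, h, rfl, rfl⟩
      exact h
  rw [this, ncard_map, Set.ncard_eq_toFinset_card', ← edgeFinset]
  decide +kernel


/-! ### the complete graph on five vertices -/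

/-- The complete graph on the first five vertices together with isolated vertices. -/
def k5 (n : ℕ) : SimpleGraph (Fin n) where
  Adj x y := x ≠ y ∧ x.val < 5 ∧ y.val < 5
  symm := ⟨fun _ _ h => ⟨h.1.symm, h.2.2, h.2.1⟩⟩
  loopless := ⟨fun _ h => h.1 rfl⟩

lemma k5_ncard {n : ℕ} (hn : 5 ≤ n) : (k5 n).edgeSet.ncard = 10 := by
  have : k5 n = (⊤ : SimpleGraph (Fin 5)).map (Fin.castLEEmb hn) := by
    ext x y
    rw [map_adj]
    constructor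
    · rintro ⟨h1, h2, h3⟩
      refine ⟨⟨x, h2⟩, ⟨y, h3⟩, ?_, rfl, rfl⟩
      intro h
      exact h1 (Fin.ext (by simpa using h))
    · rintro ⟨a, b, h, rfl, rfl⟩
      refine ⟨?_, a.2, b.2⟩
      intro h'
      exact h.ne ((Fin.castLEEmb hn).injective h')
  rw [this, ncard_map, Set.ncard_eq_toFinset_card', ← edgeFinset]
  decide +kernel

lemma k5_sat {n : ℕ} (hn : 5 ≤ n) : IsSat PK (k5 n) := by
  constructor
  · rintro ⟨f⟩
    have hlt : ∀ i : Fin 6, (f i).val < 5 := by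
      intro i
      have : ∃ j, PK.Adj i j := by
        have h := pk_adj i
        fin_cases i
        · exact ⟨1, (h 1).2 (by decide)⟩
        · exact ⟨0, (h 0).2 (by decide)⟩
        · exact ⟨1, (h 1).2 (by decide)⟩
        · exact ⟨2, (h 2).2 (by decide)⟩
        · exact ⟨5, (h 5).2 (by decide)⟩
        · exact ⟨4, (h 4).2 (by decide)⟩
      obtain ⟨j, hj⟩ := this
      exact (f.toHom.map_rel hj).2.1
    have hinj : Function.Injective (fun i : Fin 6 => (⟨(f i).val, hlt i⟩ : Fin 5)) := by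
      intro i j hij
      apply f.injective
      exact Fin.ext (by simpa using hij)
    have := Fintype.card_le_of_injective _ hinj
    simp at this
  · intro u v huv hna
    rw [isContained_iff]
    have huv' : ¬ (u.val < 5 ∧ v.val < 5) := fun h => hna ⟨huv, h⟩
    have he : (k5 n ⊔ edge u v).Adj u v := by
      right
      rw [edge_adj]
      exact ⟨Or.inl ⟨rfl, rfl⟩, huv⟩
    have hk : ∀ i j : ℕ, ∀ (hi : i < 5) (hj : j < 5), i ≠ j →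
        (k5 n ⊔ edge u v).Adj ⟨i, by omega⟩ ⟨j, by omega⟩ := by
      intro i j hi hj hij
      left
      exact ⟨fun h => hij (by simpa using h), hi, hj⟩
    -- general construction
    have gen : ∀ (a b c d : ℕ) (ha : a < 5) (hb : b < 5) (hc : c < 5) (hd : d < 5), a ≠ b → a ≠ c →
        a ≠ d → b ≠ c → b ≠ d → c ≠ d → u.val ≠ a → u.val ≠ b → u.val ≠ c → u.val ≠ d →
        v.val ≠ a → v.val ≠ b → v.val ≠ c → v.val ≠ d →
        ∃ a b c d p q, Cop (k5 n ⊔ edge u v) a b c d p q := by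
      intro a b c d ha hb hc hd n1 n2 n3 n4 n5 n6 u1 u2 u3 u4 v1 v2 v3 v4
      have nn : ∀ i j : ℕ, ∀ (hi : i < n) (hj : j < n), i ≠ j → (⟨i, hi⟩ : Fin n) ≠ ⟨j, hj⟩ :=
        fun i j hi hj h h' => h (by simpa using h')
      exact ⟨⟨a, by omega⟩, ⟨b, by omega⟩, ⟨c, by omega⟩, ⟨d, by omega⟩, u, v,
        ⟨nn _ _ _ _ n1, nn _ _ _ _ n2, nn _ _ _ _ n3, (nn _ _ _ _ u1.symm), (nn _ _ _ _ v1.symm),
          nn _ _ _ _ n4, nn _ _ _ _ n5, (nn _ _ _ _ u2.symm), (nn _ _ _ _ v2.symm),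
          nn _ _ _ _ n6, (nn _ _ _ _ u3.symm), (nn _ _ _ _ v3.symm),
          (nn _ _ _ _ u4.symm), (nn _ _ _ _ v4.symm), huv⟩,
        hk a b ha hb n1, hk b c hb hc n4, hk c d hc hd n6, he⟩
    -- the vertex of the edge inside, if any
    have key : ∀ x : ℕ, (u.val = x ∨ 5 ≤ u.val) → (v.val = x ∨ 5 ≤ v.val) →
        ∃ a b c d p q, Cop (k5 n ⊔ edge u v) a b c d p q := by
      intro x hx hy
      rcases (by omega : x = 0 ∨ x = 1 ∨ x = 2 ∨ x = 3 ∨ 4 ≤ x) with h | h | h | h | h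
      · exact gen 1 2 3 4 (by omega) (by omega) (by omega) (by omega) (by omega) (by omega)
          (by omega) (by omega) (by omega) (by omega) (by omega) (by omega) (by omega) (by omega)
          (by omega) (by omega) (by omega) (by omega)
      · exact gen 0 2 3 4 (by omega) (by omega) (by omega) (by omega) (by omega) (by omega)
          (by omega) (by omega) (by omega) (by omega) (by omega) (by omega) (by omega) (by omega)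
          (by omega) (by omega) (by omega) (by omega)
      · exact gen 0 1 3 4 (by omega) (by omega) (by omega) (by omega) (by omega) (by omega)
          (by omega) (by omega) (by omega) (by omega) (by omega) (by omega) (by omega) (by omega)
          (by omega) (by omega) (by omega) (by omega)
      · exact gen 0 1 2 4 (by omega) (by omega) (by omega) (by omega) (by omega) (by omega)
          (by omega) (by omega) (by omega) (by omega) (by omega) (by omega) (by omega) (by omega)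
          (by omega) (by omega) (by omega) (by omega)
      · exact gen 0 1 2 3 (by omega) (by omega) (by omega) (by omega) (by omega) (by omega)
          (by omega) (by omega) (by omega) (by omega) (by omega) (by omega) (by omega) (by omega)
          (by omega) (by omega) (by omega) (by omega)
    by_cases hu : u.val < 5
    · exact key u.val (Or.inl rfl) (Or.inr (by omega))
    · exact key v.val (Or.inr (by omega)) (Or.inl rfl)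

/-! ### the main theorem -/

lemma isolated {n : ℕ} (hn : 20 ≤ n) (G : SimpleGraph (Fin n)) (h : G.edgeSet.ncard ≤ 9) :
    ∃ u v, u ≠ v ∧ (∀ x, ¬ G.Adj u x) ∧ ∀ x, ¬ G.Adj v x := by
  classical
  have h1 := G.sum_degrees_eq_twice_card_edges
  have h2 : G.edgeFinset.card ≤ 9 := by
    rw [edgeFinset, ← Set.ncard_eq_toFinset_card']; exact h
  have h3 : (Finset.univ.filter fun v => G.degree v ≠ 0).card ≤ 18 := by
    have : (Finset.univ.filter fun v => G.degree v ≠ 0).card ≤ ∑ v, G.degree v := by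
      rw [Finset.card_filter]
      apply Finset.sum_le_sum
      intro v _
      split_ifs with hv
      · omega
      · omega
    omega
  have h4 : 1 < (Finset.univ.filter fun v => G.degree v = 0).card := by
    have := Finset.card_filter_add_card_filter_not (s := (Finset.univ : Finset (Fin n)))
      (fun v => G.degree v = 0)
    rw [Finset.card_univ, Fintype.card_fin] at this
    have h5 : (Finset.univ.filter fun v => ¬ G.degree v = 0).card ≤ 18 := h3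
    omega
  obtain ⟨u, hu, v, hv, huv⟩ := Finset.one_lt_card.1 h4
  have key : ∀ u, G.degree u = 0 → ∀ x, ¬ G.Adj u x := by
    intro u hu x hx
    have : 0 < G.degree u := (G.degree_pos_iff_exists_adj u).2 ⟨x, hx⟩
    omega
  exact ⟨u, v, huv, key u (Finset.mem_filter.1 hu).2, key v (Finset.mem_filter.1 hv).2⟩

lemma sat_ge {n : ℕ} (hn : 20 ≤ n) (G : SimpleGraph (Fin n)) (hs : IsSat PK G) :
    10 ≤ G.edgeSet.ncard := by
  by_contra hh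
  obtain ⟨u, v, huv, hu, hv⟩ := isolated hn G (by omega)
  exact hh (ten_le G hs u v huv hu hv)

/-- For the disjoint union of a path on four vertices and an edge, and all `n ≥ 20`, the rainbow
saturation number is at most nine and the saturation number is ten; both are attained. -/
theorem result : (∃ e, e ∈ PK.edgeSet) ∧ ∀ n : ℕ, 20 ≤ n →
    (∃ G : SimpleGraph (Fin n), IsRainbowSat PK G ∧ G.edgeSet.ncard = rainbowSatNum n PK) ∧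
    (∃ G : SimpleGraph (Fin n), IsSat PK G ∧ G.edgeSet.ncard = satNum n PK) ∧
    rainbowSatNum n PK ≤ 9 ∧ satNum n PK = 10 ∧ rainbowSatNum n PK < satNum n PK := by
  refine ⟨⟨s(0, 1), by rw [pk_edges]; left; rfl⟩, ?_⟩
  intro n hn
  have hr : 9 ∈ {m | ∃ G : SimpleGraph (Fin n), IsRainbowSat PK G ∧ G.edgeSet.ncard = m} :=
    ⟨small n, small_rsat (by omega), small_ncard (by omega)⟩
  have hk : 10 ∈ {m | ∃ G : SimpleGraph (Fin n), IsSat PK G ∧ G.edgeSet.ncard = m} :=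
    ⟨k5 n, k5_sat (by omega), k5_ncard (by omega)⟩
  have h1 : rainbowSatNum n PK ≤ 9 := Nat.sInf_le hr
  have h2 : satNum n PK = 10 := by
    apply le_antisymm (Nat.sInf_le hk)
    apply le_csInf ⟨10, hk⟩
    rintro m ⟨G, hs, rfl⟩
    exact sat_ge hn G hs
  refine ⟨Nat.sInf_mem ⟨9, hr⟩, Nat.sInf_mem ⟨10, hk⟩, h1, h2, by omega⟩

end Pool.Agent.Results.MP_e87155_co.PathEdge
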